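import Mathlib

/-!
Combinatorics and arithmetic of exponents: squares up to smooth factors (helper file).
-/

set_option autoImplicit false

namespace Pool.Agent.Q170.ZP

/-- all the prime factors of `q` are at most `T` -/
def Smo (T q : ℕ) : Prop := 0 < q ∧ ∀ p : ℕ, p.Prime → p ∣ q → p ≤ T

theorem Smo.one (T : ℕ) : Smo T 1 :=
  ⟨one_pos, fun p hp h => absurd (Nat.dvd_one.1 h) hp.one_lt.ne'⟩

theorem Smo.mul {T q q' : ℕ} (h : Smo T q) (h' : Smo T q') : Smo T (q * q') :=
  ⟨Nat.mul_pos h.1 h'.1, fun p hp hd => ((Nat.Prime.dvd_mul hp).1 hd).elim (h.2 p hp) (h'.2 p hp)⟩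

theorem Smo.of_le {T q : ℕ} (h0 : 0 < q) (h : q ≤ T) : Smo T q :=
  ⟨h0, fun _ _ hd => (Nat.le_of_dvd h0 hd).trans h⟩

/-- `a` is a square up to a factor with small prime factors -/
def Sq (T a : ℕ) : Prop := ∃ q, Smo T q ∧ IsSquare (a * q)

theorem Sq.sq (T a : ℕ) : Sq T (a * a) := ⟨1, Smo.one T, by rw [mul_one]; exact ⟨a, rfl⟩⟩

theorem Sq.one (T : ℕ) : Sq T 1 := ⟨1, Smo.one T, ⟨1, rfl⟩⟩

theorem Sq.mul {T a b : ℕ} (ha : Sq T a) (hb : Sq T b) : Sq T (a * b) := by
  obtain ⟨q, hq, s, hs⟩ := ha
  obtain ⟨q', hq', t, ht⟩ := hb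
  refine ⟨q * q', hq.mul hq', s * t, ?_⟩
  calc a * b * (q * q') = (a * q) * (b * q') := by ring
    _ = s * s * (t * t) := by rw [hs, ht]
    _ = s * t * (s * t) := by ring

theorem isSquare_cancel {a x : ℕ} (ha : 0 < a) (h : IsSquare (a * a * x)) : IsSquare x := by
  obtain ⟨y, hy⟩ := h
  have h1 : a ^ 2 ∣ y ^ 2 := ⟨x, by rw [sq, sq, ← hy]⟩
  obtain ⟨z, rfl⟩ := (Nat.pow_dvd_pow_iff two_ne_zero).1 h1
  refine ⟨z, ?_⟩
  have h2 : a * a * x = a * a * (z * z) := by rw [hy]; ring
  exact Nat.eq_of_mul_eq_mul_left (Nat.mul_pos ha ha) h2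

theorem Sq.cancel {T a b : ℕ} (h0 : 0 < a) (ha : Sq T a) (hab : Sq T (a * b)) : Sq T b := by
  obtain ⟨q, hq, s, hs⟩ := ha
  obtain ⟨q', hq', t, ht⟩ := hab
  refine ⟨q * q', hq.mul hq', isSquare_cancel h0 ⟨s * t, ?_⟩⟩
  calc a * a * (b * (q * q')) = (a * q) * (a * b * q') := by ring
    _ = s * s * (t * t) := by rw [hs, ht]
    _ = s * t * (s * t) := by ring

theorem Sq.prod {T : ℕ} {ι : Type*} (I : Finset ι) (f : ι → ℕ) (h : ∀ i ∈ I, Sq T (f i)) :
    Sq T (∏ i ∈ I, f i) := by
  classical
  induction I using Finset.induction_on with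
  | empty => rw [Finset.prod_empty]; exact Sq.one T
  | insert i s hi ih =>
    rw [Finset.prod_insert hi]
    exact (h i (Finset.mem_insert_self _ _)).mul
      (ih fun j hj => h j (Finset.mem_insert_of_mem hj))

/-- a product of an even number of numbers with the same class -/
theorem Sq.even {T : ℕ} {ι : Type*} (I : Finset ι) (w : ι → ℕ) (hw : ∀ i ∈ I, 0 < w i)
    (he : Even I.card) (h : ∀ i ∈ I, ∀ j ∈ I, Sq T (w i * w j)) : Sq T (∏ i ∈ I, w i) := by
  classical
  rcases I.eq_empty_or_nonempty with rfl | ⟨x, hx⟩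
  · rw [Finset.prod_empty]; exact Sq.one T
  obtain ⟨k, hk⟩ := he
  have h1 : Sq T (∏ i ∈ I, (w x * w i)) := Sq.prod I _ fun i hi => h x hx i hi
  rw [Finset.prod_mul_distrib, Finset.prod_const, hk, pow_add] at h1
  refine Sq.cancel (Nat.mul_pos (pow_pos (hw x hx) _) (pow_pos (hw x hx) _)) (Sq.sq T _) h1

/-- The existence of a nonempty set of pairs with even fibres. -/
theorem exists_even {L n m : ℕ} {γ : Type} [DecidableEq γ] (hL : m + 2 ≤ L)
    (Tt : Fin L → Finset (Fin n)) (hT : ∀ l, n ≤ (Tt l).card + m) (cls : Fin n → γ)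
    (Fr : Finset γ) (hmaps : ∀ l, ∀ i ∈ Tt l, cls i ∈ Fr) (hF : Fr.card + m < n) :
    ∃ P : Finset (Fin L × Fin n), P.Nonempty ∧ (∀ x ∈ P, x.2 ∈ Tt x.1) ∧
      (∀ l c, Even (P.filter fun x => x.1 = l ∧ cls x.2 = c).card) ∧
      ∀ i, Even (P.filter fun x => x.2 = i).card := by
  classical
  let U : Finset (Fin n) := Finset.univ.filter fun i => cls i ∈ Fr
  let C : Finset γ := U.image cls
  have hCF : C.card ≤ Fr.card := by
    refine Finset.card_le_card ?_
    intro c hc
    obtain ⟨i, hi, rfl⟩ := Finset.mem_image.1 hc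
    exact (Finset.mem_filter.1 hi).2
  have hroot : ∀ c : C, ∃ i ∈ U, cls i = c := fun c => by
    obtain ⟨i, hi, h⟩ := Finset.mem_image.1 c.2
    exact ⟨i, hi, h⟩
  choose ρ hρU hρ using hroot
  have hρi : Function.Injective ρ := fun c c' h => Subtype.ext (by rw [← hρ c, ← hρ c', h])
  let Rt : Finset (Fin n) := Finset.univ.image ρ
  have hRtU : Rt ⊆ U := by
    intro i hi
    obtain ⟨c, -, rfl⟩ := Finset.mem_image.1 hi
    exact hρU c
  have hRt : Rt.card = C.card := by
    rw [Finset.card_image_of_injective _ hρi, Finset.card_univ, Fintype.card_coe]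
  let Non : Finset (Fin n) := U \ Rt
  have hNon : Non.card + C.card = U.card := by
    rw [← hRt]
    exact Finset.card_sdiff_add_card_eq_card hRtU
  have hUn : U.card ≤ n := by
    have := Finset.card_le_univ U
    rwa [Fintype.card_fin] at this
  let Idx : Finset (Fin L × Fin n) := Finset.univ.filter fun x => x.2 ∈ Tt x.1
  have hIdx : L * (n - m) ≤ Idx.card := by
    have h1 : Idx.card = ∑ l : Fin L, (Tt l).card := by
      have h2 : Idx = (Finset.univ : Finset (Fin L)).biUnion fun l =>
          (Tt l).image fun i => (l, i) := by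
        ext ⟨l, i⟩
        simp [Idx]
      rw [h2, Finset.card_biUnion]
      · refine Finset.sum_congr rfl fun l _ => ?_
        exact Finset.card_image_of_injective _ fun i j h => (Prod.mk.inj h).2
      · intro l _ l' _ hll
        rw [Function.onFun, Finset.disjoint_left]
        rintro x hx hx'
        obtain ⟨i, -, rfl⟩ := Finset.mem_image.1 hx
        obtain ⟨j, -, h⟩ := Finset.mem_image.1 hx'
        exact hll (Prod.mk.inj h).1.symm
    rw [h1]
    calc L * (n - m) = ∑ _l : Fin L, (n - m) := by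
          rw [Finset.sum_const, Finset.card_univ, Fintype.card_fin, smul_eq_mul]
      _ ≤ _ := Finset.sum_le_sum fun l _ => by
          have := hT l
          omega
  have hdim : Non.card + L * C.card < Idx.card := by
    refine lt_of_lt_of_le ?_ hIdx
    obtain ⟨a, ha⟩ : ∃ a, n = m + (Fr.card + (a + 1)) := ⟨n - m - Fr.card - 1, by omega⟩
    have h1 : n - m = Fr.card + (a + 1) := by omega
    rw [h1]
    obtain ⟨c, hc⟩ : ∃ c, Fr.card = C.card + c := ⟨Fr.card - C.card, by omega⟩
    rw [hc]
    obtain ⟨L', hL'⟩ : ∃ L', L = m + 2 + L' := ⟨L - (m + 2), by omega⟩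
    have h2 : Non.card ≤ m + (c + (a + 1)) := by omega
    rw [hL']
    nlinarith [Nat.zero_le (m * c), Nat.zero_le (m * a), Nat.zero_le (L' * c),
      Nat.zero_le (L' * a)]
  -- the linear map
  let φ : (Idx → ZMod 2) →ₗ[ZMod 2] ((Non ⊕ (Fin L × C)) → ZMod 2) :=
    { toFun := fun f => Sum.elim (fun v => ∑ x : Idx, if x.1.2 = v then f x else 0)
        (fun lc => ∑ x : Idx, if x.1.1 = lc.1 ∧ cls x.1.2 = lc.2 then f x else 0)
      map_add' := by
        intro f g
        funext z
        rcases z with v | lc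
        · simp only [Sum.elim_inl, Pi.add_apply]
          rw [← Finset.sum_add_distrib]
          refine Finset.sum_congr rfl fun x _ => ?_
          split_ifs <;> simp
        · simp only [Sum.elim_inr, Pi.add_apply]
          rw [← Finset.sum_add_distrib]
          refine Finset.sum_congr rfl fun x _ => ?_
          split_ifs <;> simp
      map_smul' := by
        intro a f
        funext z
        rcases z with v | lc
        · simp only [Sum.elim_inl, Pi.smul_apply, smul_eq_mul, RingHom.id_apply, Finset.mul_sum]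
          refine Finset.sum_congr rfl fun x _ => ?_
          split_ifs <;> simp
        · simp only [Sum.elim_inr, Pi.smul_apply, smul_eq_mul, RingHom.id_apply, Finset.mul_sum]
          refine Finset.sum_congr rfl fun x _ => ?_
          split_ifs <;> simp }
  have hker : LinearMap.ker φ ≠ ⊥ := by
    refine LinearMap.ker_ne_bot_of_finrank_lt ?_
    rw [Module.finrank_fintype_fun_eq_card, Module.finrank_fintype_fun_eq_card,
      Fintype.card_sum, Fintype.card_prod, Fintype.card_fin, Fintype.card_coe, Fintype.card_coe,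
      Fintype.card_coe]
    exact hdim
  obtain ⟨f, hf, hf0⟩ := (Submodule.ne_bot_iff _).1 hker
  have hz2 : ∀ z : ZMod 2, z ≠ 0 → z = 1 := by decide
  let P : Finset (Fin L × Fin n) := (Finset.univ.filter fun x : Idx => f x ≠ 0).image Subtype.val
  have hPmem : ∀ x : Idx, (x : Fin L × Fin n) ∈ P ↔ f x ≠ 0 := by
    intro x
    constructor
    · intro h
      obtain ⟨y, hy, hyx⟩ := Finset.mem_image.1 h
      have : y = x := Subtype.ext hyx
      subst this
      exact (Finset.mem_filter.1 hy).2
    · intro h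
      exact Finset.mem_image_of_mem _ (Finset.mem_filter.2 ⟨Finset.mem_univ _, h⟩)
  have hPI : ∀ x ∈ P, x ∈ Idx := by
    intro x hx
    obtain ⟨y, -, rfl⟩ := Finset.mem_image.1 hx
    exact y.2
  -- parity of the fibres
  have hpar : ∀ p : Fin L × Fin n → Prop, [DecidablePred p] →
      (∑ x : Idx, if p x.1 then f x else 0) = 0 → Even (P.filter p).card := by
    intro p _ hp
    have h1 : (∑ x : Idx, if p x.1 then f x else 0) = ((P.filter p).card : ZMod 2) := by
      have h2 : (P.filter p) = (Finset.univ.filter fun x : Idx => f x ≠ 0 ∧ p x.1).image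
          Subtype.val := by
        ext x
        simp only [Finset.mem_filter, Finset.mem_image]
        constructor
        · rintro ⟨hx, hpx⟩
          refine ⟨⟨x, hPI x hx⟩, ⟨Finset.mem_univ _, ?_, hpx⟩, rfl⟩
          exact (hPmem ⟨x, hPI x hx⟩).1 hx
        · rintro ⟨y, ⟨-, hy1, hy2⟩, rfl⟩
          exact ⟨(hPmem y).2 hy1, hy2⟩
      rw [h2, Finset.card_image_of_injective _ Subtype.val_injective, Finset.card_filter,
        Nat.cast_sum]
      refine Finset.sum_congr rfl fun x _ => ?_
      by_cases hfx : f x = 0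
      · simp [hfx]
      · by_cases hpx : p x.1
        · rw [if_pos hpx, if_pos ⟨hfx, hpx⟩, hz2 _ hfx]
          simp
        · rw [if_neg hpx, if_neg fun h => hpx h.2]
          simp
    rw [h1] at hp
    exact (ZMod.natCast_eq_zero_iff_even).1 hp
  have hφ : ∀ z, φ f z = 0 := fun z => by rw [LinearMap.mem_ker.1 hf]; rfl
  have hlc : ∀ l c, Even (P.filter fun x => x.1 = l ∧ cls x.2 = c).card := by
    intro l c
    by_cases hc : c ∈ C
    · exact hpar _ (hφ (Sum.inr (l, ⟨c, hc⟩)))
    · have h1 : (P.filter fun x => x.1 = l ∧ cls x.2 = c) = ∅ := by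
        refine Finset.filter_eq_empty_iff.2 ?_
        rintro x hx ⟨-, h⟩
        apply hc
        rw [← h]
        refine Finset.mem_image_of_mem _ (Finset.mem_filter.2 ⟨Finset.mem_univ _, ?_⟩)
        exact hmaps x.1 x.2 (Finset.mem_filter.1 (hPI x hx)).2
      rw [h1]
      exact ⟨0, rfl⟩
  have hnon : ∀ i ∈ Non, Even (P.filter fun x => x.2 = i).card := by
    intro i hi
    exact hpar _ (hφ (Sum.inl ⟨i, hi⟩))
  refine ⟨P, ?_, fun x hx => (Finset.mem_filter.1 (hPI x hx)).2, hlc, ?_⟩
  · by_contra hne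
    rw [Finset.not_nonempty_iff_eq_empty] at hne
    apply hf0
    funext x
    by_contra h
    have h1 := (hPmem x).2 h
    rw [hne] at h1
    exact absurd h1 (Finset.notMem_empty _)
  · intro i
    by_cases hiN : i ∈ Non
    · exact hnon i hiN
    by_cases hiU : i ∈ U
    · have hiR : i ∈ Rt := by
        by_contra h
        exact hiN (Finset.mem_sdiff.2 ⟨hiU, h⟩)
      obtain ⟨c, -, hci⟩ := Finset.mem_image.1 hiR
      -- all points of the class
      have h1 : Even (P.filter fun x => cls x.2 = c).card := by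
        have h2 : (P.filter fun x => cls x.2 = c).card =
            ∑ l : Fin L, (P.filter fun x => x.1 = l ∧ cls x.2 = c).card := by
          rw [Finset.card_eq_sum_card_fiberwise (f := Prod.fst) (t := Finset.univ)
            (fun _ _ => Finset.mem_coe.2 (Finset.mem_univ _))]
          refine Finset.sum_congr rfl fun l _ => ?_
          rw [Finset.filter_filter]
          congr 1
          ext x
          rw [Finset.mem_filter, Finset.mem_filter]
          tauto
        rw [h2]
        exact Finset.even_sum _ fun l _ => hlc l c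
      have h3 : (P.filter fun x => cls x.2 = c).card = (P.filter fun x => x.2 = i).card +
          ∑ v ∈ Non.filter fun v => cls v = c, (P.filter fun x => x.2 = v).card := by
        have h4 : (P.filter fun x => cls x.2 = c) = (P.filter fun x => x.2 = i) ∪
            (Non.filter fun v => cls v = c).biUnion fun v => P.filter fun x => x.2 = v := by
          ext x
          rw [Finset.mem_union, Finset.mem_filter, Finset.mem_filter, Finset.mem_biUnion]
          constructor
          · rintro ⟨hx, hxc⟩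
            by_cases hxi : x.2 = i
            · exact Or.inl ⟨hx, hxi⟩
            · right
              refine ⟨x.2, Finset.mem_filter.2 ⟨Finset.mem_sdiff.2 ⟨Finset.mem_filter.2
                ⟨Finset.mem_univ _, hmaps x.1 x.2 (Finset.mem_filter.1 (hPI x hx)).2⟩, ?_⟩, hxc⟩,
                Finset.mem_filter.2 ⟨hx, rfl⟩⟩
              intro h
              obtain ⟨c', -, hc'⟩ := Finset.mem_image.1 h
              apply hxi
              have h5 : c' = c := Subtype.ext (by rw [← hρ c', hc', hxc])
              rw [← hc', h5, hci]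
          · rintro (⟨hx, hxi⟩ | ⟨v, hv, hx⟩)
            · refine ⟨hx, ?_⟩
              rw [hxi, ← hci]
              exact hρ c
            · obtain ⟨hx, hxv⟩ := Finset.mem_filter.1 hx
              rw [← hxv] at hv
              exact ⟨hx, (Finset.mem_filter.1 hv).2⟩
        rw [h4, Finset.card_union_of_disjoint, Finset.card_biUnion]
        · intro v _ v' _ hvv
          rw [Function.onFun, Finset.disjoint_left]
          intro x hx hx'
          exact hvv ((Finset.mem_filter.1 hx).2.symm.trans (Finset.mem_filter.1 hx').2)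
        · rw [Finset.disjoint_left]
          intro x hx hx'
          obtain ⟨v, hv, hxv⟩ := Finset.mem_biUnion.1 hx'
          have h5 : v = i := (Finset.mem_filter.1 hxv).2.symm.trans (Finset.mem_filter.1 hx).2
          rw [h5] at hv
          exact hiN (Finset.mem_filter.1 hv).1
      have h6 : Even (∑ v ∈ Non.filter fun v => cls v = c, (P.filter fun x => x.2 = v).card) :=
        Finset.even_sum _ fun v hv => hnon v (Finset.mem_filter.1 hv).1
      rw [h3] at h1
      exact (Nat.even_add.1 h1).2 h6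
    · have h1 : (P.filter fun x => x.2 = i) = ∅ := by
        refine Finset.filter_eq_empty_iff.2 ?_
        rintro x hx rfl
        exact hiU (Finset.mem_filter.2 ⟨Finset.mem_univ _,
          hmaps x.1 x.2 (Finset.mem_filter.1 (hPI x hx)).2⟩)
      rw [h1]
      exact ⟨0, rfl⟩

/-- The exponents at the places are positive and multiplicatively independent modulo squares and
numbers with prime factors at most `T`. -/
def IndExp {L n : ℕ} (T : ℕ) (e : Fin L → Fin n → ℕ) : Prop :=
  (∀ l i, 0 < e l i) ∧ ∀ P : Finset (Fin L × Fin n), P.Nonempty →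
    ¬ Sq T (∏ x ∈ P, e x.1 x.2)

theorem IndExp.comp {L M n T : ℕ} {e : Fin M → Fin n → ℕ} (h : IndExp T e) (f : Fin L → Fin M)
    (hf : Function.Injective f) : IndExp T fun l i => e (f l) i := by
  classical
  refine ⟨fun l i => h.1 (f l) i, fun P hP hsq => ?_⟩
  let F : Fin L × Fin n → Fin M × Fin n := fun x => (f x.1, x.2)
  have hF : Function.Injective F := fun x y hxy => by
    obtain ⟨h1, h2⟩ := Prod.mk.inj hxy
    exact Prod.ext (hf h1) h2
  refine h.2 (P.image F) (hP.image F) ?_
  rw [Finset.prod_image fun x _ y _ hxy => hF hxy]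
  exact hsq

/-- The contradiction from the relations at `m + 2` places. -/
theorem no_rel {L n m T : ℕ} {γ : Type} [DecidableEq γ] (hL : m + 2 ≤ L)
    (e : Fin L → Fin n → ℕ) (he : IndExp T e) (δ : Fin n → ℕ) (hδ : ∀ i, 0 < δ i)
    (Tt : Fin L → Finset (Fin n)) (hT : ∀ l, n ≤ (Tt l).card + m) (cls : Fin n → γ)
    (Fr : Finset γ) (hmaps : ∀ l, ∀ i ∈ Tt l, cls i ∈ Fr) (hF : Fr.card + m < n)
    (hrel : ∀ l, ∀ i ∈ Tt l, ∀ j ∈ Tt l, i ≠ j → cls i = cls j →
      Sq T (δ i * δ j * (e l i * e l j))) : False := by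
  classical
  obtain ⟨P, hP0, hPT, hlc, hv⟩ := exists_even hL Tt hT cls Fr hmaps hF
  apply he.2 P hP0
  let w : Fin L × Fin n → ℕ := fun x => δ x.2 * e x.1 x.2
  have hw : ∀ x, 0 < w x := fun x => Nat.mul_pos (hδ _) (he.1 _ _)
  have h1 : Sq T (∏ x ∈ P, w x) := by
    rw [← Finset.prod_fiberwise_of_maps_to (s := P)
      (t := P.image fun x => (x.1, cls x.2)) (g := fun x => (x.1, cls x.2))
      (fun x hx => Finset.mem_image_of_mem _ hx)]
    refine Sq.prod _ _ fun lc _ => ?_
    refine Sq.even _ w (fun x _ => hw x) ?_ ?_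
    · have h2 : (P.filter fun x => (x.1, cls x.2) = lc) =
          (P.filter fun x => x.1 = lc.1 ∧ cls x.2 = lc.2) := by
        ext x
        rw [Finset.mem_filter, Finset.mem_filter, Prod.ext_iff]
      rw [h2]
      exact hlc _ _
    · rintro ⟨l, i⟩ hx ⟨l', j⟩ hy
      obtain ⟨hx1, hx2⟩ := Finset.mem_filter.1 hx
      obtain ⟨hy1, hy2⟩ := Finset.mem_filter.1 hy
      rw [← hy2, Prod.ext_iff] at hx2
      obtain ⟨h3, h4⟩ := hx2
      simp only at h3 h4
      subst h3
      by_cases hij : i = j
      · subst hij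
        exact Sq.sq T _
      · have h5 := hrel l i (hPT _ hx1) j (hPT _ hy1) hij h4
        have h6 : w (l, i) * w (l, j) = δ i * δ j * (e l i * e l j) := by
          simp only [w]
          ring
        rw [h6]
        exact h5
  have h2 : ∏ x ∈ P, w x = (∏ x ∈ P, δ x.2) * ∏ x ∈ P, e x.1 x.2 := Finset.prod_mul_distrib
  rw [h2] at h1
  refine Sq.cancel (Finset.prod_pos fun x _ => hδ _) ?_ h1
  rw [← Finset.prod_fiberwise_of_maps_to (s := P) (t := Finset.univ) (g := fun x => x.2)
    (fun x _ => Finset.mem_univ _)]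
  refine Sq.prod _ _ fun i _ => ?_
  refine Sq.even _ _ (fun x _ => hδ _) (hv i) ?_
  intro x hx y hy
  rw [(Finset.mem_filter.1 hx).2, (Finset.mem_filter.1 hy).2]
  exact Sq.sq T _

/-- distinct primes larger than `T` -/
theorem indExp_of_primes {L n T : ℕ} (e : Fin L → Fin n → ℕ) (hp : ∀ l i, (e l i).Prime)
    (hT : ∀ l i, T < e l i) (hinj : Function.Injective fun x : Fin L × Fin n => e x.1 x.2) :
    IndExp T e := by
  classical
  refine ⟨fun l i => (hp l i).pos, fun P hP h => ?_⟩
  obtain ⟨q, hq, y, hy⟩ := h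
  obtain ⟨x, hx⟩ := hP
  have hpx := hp x.1 x.2
  have hprod0 : ∏ z ∈ P, e z.1 z.2 ≠ 0 := Finset.prod_ne_zero_iff.2 fun z _ => (hp _ _).ne_zero
  have hy0 : y ≠ 0 := by
    rintro rfl
    rw [mul_zero] at hy
    rcases mul_eq_zero.1 hy with h | h
    · exact hprod0 h
    · exact hq.1.ne' h
  have h1 := congrArg (fun z => z.factorization (e x.1 x.2)) hy
  rw [Nat.factorization_mul hprod0 hq.1.ne', Nat.factorization_mul hy0 hy0, Finsupp.add_apply,
    Finsupp.add_apply, Nat.factorization_prod fun z _ => (hp _ _).ne_zero] at h1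
  have h2 : q.factorization (e x.1 x.2) = 0 := by
    refine Nat.factorization_eq_zero_of_not_dvd fun hd => ?_
    exact absurd (hq.2 _ hpx hd) (not_le.2 (hT _ _))
  have h3 : (∑ z ∈ P, (e z.1 z.2).factorization) (e x.1 x.2) = 1 := by
    rw [Finsupp.finsetSum_apply, Finset.sum_eq_single x]
    · rw [hpx.factorization, Finsupp.single_eq_same]
    · intro z _ hz
      rw [(hp z.1 z.2).factorization]
      exact Finsupp.single_eq_of_ne fun h => hz (hinj h.symm)
    · intro h
      exact absurd hx h
  rw [h2, h3] at h1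
  omega

end Pool.Agent.Q170.ZP
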