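import Pool.Agent.Q170.ZP.MultiNear

/-!
Families with several parameters of subvarieties of `Y(1)^n` which degenerate along hypersurfaces:
the members with integral parameters (helper file).
-/

set_option autoImplicit false

namespace Pool.Agent.Q170.ZP.Multi

open H294ZP UpperHalfPlane MvPolynomial Pool.Agent.W282.ZP Pool.Agent.Y152.BD
open Pool.Agent.Y152.RP.Fam (SpecialVariety SpecialVariety.locus NoAtypical valueAt rel_of_locus)

/-- the value at the parameter `t = (t_1, …, t_r)` of a polynomial with coefficients in `K` -/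
noncomputable def evalAt (K : Subfield ℂ) {r : ℕ} (t : Fin r → ℂ) :
    MvPolynomial (Fin r) K →+* ℂ :=
  (aeval t : MvPolynomial (Fin r) K →ₐ[K] ℂ).toRingHom

/-- `y` is a vector of homogeneous coordinates of a point of the member `B_t` of the family of
projective algebraic sets defined by the forms `G k`. -/
def OnB {K : Subfield ℂ} {r : ℕ} (t : Fin r → ℂ) {N : ℕ} {κ : Type}
    (G : κ → MvPolynomial (Fin (N + 1)) (MvPolynomial (Fin r) K)) (y : Fin (N + 1) → ℂ) : Prop :=
  y ≠ 0 ∧ ∀ k, eval₂ (evalAt K t) y (G k) = 0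

/-- The divisors of the `A i / B i` are in general position at `t`: no point of `B_t` lies on
`m + 1` of them. -/
def InGeneralPosition {K : Subfield ℂ} {r : ℕ} (t : Fin r → ℂ) {N n : ℕ} {κ : Type} (m : ℕ)
    (G : κ → MvPolynomial (Fin (N + 1)) (MvPolynomial (Fin r) K))
    (A B : Fin n → MvPolynomial (Fin (N + 1)) (MvPolynomial (Fin r) K)) : Prop :=
  ∀ I : Finset (Fin n), I.card = m + 1 → ∀ y : Fin (N + 1) → ℂ, OnB t G y →
    ∃ i ∈ I, eval₂ (evalAt K t) y (A i) * eval₂ (evalAt K t) y (B i) ≠ 0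

/-- The member `X_t` of the family of subsets of `Y(1)^n`: the points `x` over which there are
values `s_i` of the functions on the factors of the product of modular curves, with
`c_i (t) s_i = A_i (y) / B_i (y)` for a point `y` of `B_t`. -/
def scaledImage {K : Subfield ℂ} {r : ℕ} (t : Fin r → ℂ) {N n : ℕ} {κ : Type}
    (G : κ → MvPolynomial (Fin (N + 1)) (MvPolynomial (Fin r) K))
    (A B : Fin n → MvPolynomial (Fin (N + 1)) (MvPolynomial (Fin r) K))
    (R : Fin n → Polynomial (Polynomial K)) (c : Fin n → MvPolynomial (Fin r) K) :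
    Set (Fin n → ℂ) :=
  {x | ∃ y, OnB t G y ∧ ∃ s : Fin n → ℂ, ∀ i, valueAt (R i) (s i) (x i) = 0 ∧
    evalAt K t (c i) * eval₂ (evalAt K t) y (B i) * s i = eval₂ (evalAt K t) y (A i)}

/-- An integer which is not divisible by `p` is a unit at a place above `p`. -/
theorem v_int_one {V : ValuationSubring ℂ} {p : ℕ} (hp : p.Prime)
    (hV : V.valuation (p : ℂ) < 1) {a : ℤ} (ha : ¬ (p : ℤ) ∣ a) :
    V.valuation (a : ℂ) = 1 := by
  have hle : V.valuation (a : ℂ) ≤ 1 :=
    (ValuationSubring.valuation_le_one_iff _ _).2 (intCast_mem V a)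
  refine le_antisymm hle ?_
  by_contra hlt
  push Not at hlt
  have hcop : IsCoprime (p : ℤ) a :=
    (Nat.prime_iff_prime_int.1 hp).irreducible.coprime_iff_not_dvd.2 ha
  obtain ⟨u, w, huw⟩ := hcop
  have h1 : (u : ℂ) * (p : ℂ) + (w : ℂ) * (a : ℂ) = 1 := by exact_mod_cast huw
  have h2 : V.valuation ((u : ℂ) * (p : ℂ) + (w : ℂ) * (a : ℂ)) < 1 := by
    refine Valuation.map_add_lt _ ?_ ?_
    · rw [map_mul]
      exact (mul_le_of_le_one_left' ((ValuationSubring.valuation_le_one_iff _ _).2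
        (intCast_mem V u))).trans_lt hV
    · rw [map_mul]
      exact (mul_le_of_le_one_left' ((ValuationSubring.valuation_le_one_iff _ _).2
        (intCast_mem V w))).trans_lt hlt
  rw [h1, map_one] at h2
  exact lt_irrefl _ h2

/-- An integer which is divisible by `p` is not a unit at a place above `p`. -/
theorem v_int_lt {V : ValuationSubring ℂ} {p : ℕ}
    (hV : V.valuation (p : ℂ) < 1) {a : ℤ} (ha : (p : ℤ) ∣ a) :
    V.valuation (a : ℂ) < 1 := by
  obtain ⟨u, rfl⟩ := ha
  push_cast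
  rw [map_mul]
  exact (mul_le_of_le_one_right' ((ValuationSubring.valuation_le_one_iff _ _).2
    (intCast_mem V u))).trans_lt hV

/-- the value of an integral polynomial at an integral point -/
theorem aeval_int {r : ℕ} (t : Fin r → ℤ) (P : MvPolynomial (Fin r) ℤ) :
    aeval (fun j => (t j : ℂ)) P = ((eval t P : ℤ) : ℂ) := by
  have h1 := MvPolynomial.aeval_algebraMap_apply ℂ t P
  exact h1

/-- Families with several parameters which degenerate along hypersurfaces: the members with integral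
parameters which are near to all these hypersurfaces at suitable primes. -/
theorem multiW (K : Subfield ℂ) [Countable K] (κ : Type) [Finite κ] (r N n m T L : ℕ)
    (hL : m + 2 ≤ L)
    (G : κ → MvPolynomial (Fin (N + 1)) (MvPolynomial (Fin r) K))
    (hG : ∀ k, ∃ e, (G k).IsHomogeneous e)
    (A B : Fin n → MvPolynomial (Fin (N + 1)) (MvPolynomial (Fin r) K)) (δ : Fin n → ℕ)
    (hA : ∀ i, (A i).IsHomogeneous (δ i)) (hB : ∀ i, (B i).IsHomogeneous (δ i))
    (R : Fin n → Polynomial (Polynomial K)) (hR : ∀ i, (R i).Monic)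
    (hT : ∀ i u w, ((R i).coeff u).coeff w ≠ 0 → u ≤ T ∧ w ≤ T)
    (c : Fin n → MvPolynomial (Fin r) K)
    (D E : Fin L → MvPolynomial (Fin r) ℤ) (b : Fin L → Fin n → MvPolynomial (Fin r) K)
    (e : Fin L → Fin n → ℕ) (hind : IndExp T e)
    (hc : ∀ l i, c i = MvPolynomial.map (Int.castRingHom K) (D l) ^ e l i * b l i)
    (hpos : ∀ l (t : Fin r → ℂ), aeval t (D l) = 0 → aeval t (E l) ≠ 0 →
      InGeneralPosition t m G A B ∧ ∀ i, evalAt K t (b l i) ≠ 0) (Γ : Finset ℂ)
    (hΓ : ∀ γ ∈ Γ, γ ∈ K) :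
    ∃ Q : ℕ, ∀ t : Fin r → ℤ,
      (∀ l, ∃ p : ℕ, p.Prime ∧ Q < p ∧ (p : ℤ) ∣ eval t (D l) ∧ ¬ (p : ℤ) ∣ eval t (E l)) →
      NoAtypical (algebraMap (Algebra.adjoin ℤ (Γ : Set ℂ)) ℂ) K m
        (scaledImage (fun j => (t j : ℂ)) G A B R c) := by
  classical
  let k := algebraicClosure K ℂ
  have hcl : IsAlgClosure K k := inferInstance
  have hac : IsAlgClosed k := hcl.isAlgClosed
  let φ : Polynomial K →+* Polynomial k := Polynomial.mapRingHom (algebraMap K k)
  let Γ' : Set k := (fun γ : Γ => algebraMap K k ⟨γ, hΓ γ γ.2⟩) '' Set.univ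
  have hΓ' : algebraMap k ℂ '' Γ' = (Γ : Set ℂ) := by
    ext z
    constructor
    · rintro ⟨_, ⟨g, -, rfl⟩, rfl⟩
      exact g.2
    · intro hz
      exact ⟨_, ⟨⟨z, hz⟩, trivial, rfl⟩, rfl⟩
  obtain ⟨W, hW, hΓW, hnear⟩ := nearP (K := K) (k := k) (m := m) G hG A B δ hA hB
    (fun i => (R i).map φ) c D E b e hc
    (fun l t hD hE => ⟨fun I hI y h1 h2 => by
      by_contra h0
      obtain ⟨i, hi, h3⟩ := (hpos l t hD hE).1 I hI y ⟨h0, h1⟩
      exact h3 (h2 i hi), (hpos l t hD hE).2⟩)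
    Γ' (Set.toFinite _)
  have hRk : ∀ i, ((R i).map φ).Monic := fun i => (hR i).map _
  have hTk : ∀ i u w, (((R i).map φ).coeff u).coeff w ≠ 0 → u ≤ T ∧ w ≤ T := by
    intro i u w h0
    rw [Polynomial.coeff_map] at h0
    change ((Polynomial.mapRingHom (algebraMap K k)) ((R i).coeff u)).coeff w ≠ 0 at h0
    rw [Polynomial.coe_mapRingHom, Polynomial.coeff_map] at h0
    exact hT i u w fun h1 => h0 (by rw [h1, map_zero])
  have hΓV : ∀ V : ValuationSubring ℂ, (∀ z ∈ W, algebraMap k ℂ z ∈ V) →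
      ∀ z ∈ Γ', algebraMap k ℂ z ∈ V := fun V hV z hz => hV z (hΓW hz)
  have := hW.to_subtype
  obtain ⟨Q, hQ⟩ := Pool.Agent.W466.ZC.exists_val' (fun z : W => (z : k))
  refine ⟨Q, fun t ht r' Z => ?_⟩
  have hpt : ∀ x ∈ scaledImage (fun j => (t j : ℂ)) G A B R c ∩ Z.locus, ∀ S : Finset (Fin n),
      AlgebraicIndependent K (fun i : S => x i) → S.card + n ≤ r' + m := by
    rintro x ⟨⟨y, hy, s, hxy⟩, hxZ⟩ S hS
    have hSk : AlgebraicIndependent k (fun i : S => x i) := hS.extendScalars k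
    choose p hp hpQ hpD hpE using ht
    choose V hV1 hVW hVx using fun l => hQ (p l) (hp l) (hpQ l) _ _ hSk
    have hVp : ∀ l, (V l).valuation ((p l : ℕ) : ℂ) < 1 := fun l => by
      have h1 := hV1 l
      rwa [ValuationSubring.mem_nonunits_iff] at h1
    have hVD : ∀ l, (V l).valuation (aeval (fun j => (t j : ℂ)) (D l)) < 1 := fun l => by
      rw [aeval_int]
      exact v_int_lt (hVp l) (hpD l)
    have hVE : ∀ l, (V l).valuation (aeval (fun j => (t j : ℂ)) (E l)) = 1 := fun l => by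
      rw [aeval_int]
      exact v_int_one (hp l) (hVp l) (hpE l)
    have hVW' : ∀ l, ∀ z ∈ W, algebraMap k ℂ z ∈ V l := fun l z hz => hVW l ⟨z, hz⟩
    have h1 : ∀ i, Z.cls i = none →
        IsIntegral (Algebra.adjoin ℤ (algebraMap k ℂ '' Γ')) (x i) := by
      intro i hi
      obtain ⟨z, hz⟩ := hxZ
      rw [hΓ', (hz i).1 hi]
      rcases Z.allowed i with ⟨τ, hτ, hc⟩ | h
      · rw [hc]
        exact (singular_modulus_integral τ hτ).tower_top
      · exact h
    have h2 : ∀ i, Polynomial.eval₂ (Polynomial.aeval (x i) : Polynomial k →ₐ[k] ℂ).toRingHom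
        (s i) ((R i).map φ) = 0 := by
      intro i
      rw [Polynomial.eval₂_map]
      have h1 : ((Polynomial.aeval (x i) : Polynomial k →ₐ[k] ℂ).toRingHom).comp φ =
          (Polynomial.aeval (x i) : Polynomial K →ₐ[K] ℂ).toRingHom := by
        ext z
        · simp [φ]
        · simp [φ]
      rw [h1]
      exact (hxy i).1
    refine coreW (m := m) (T := T) hL (fun i => (R i).map φ) hRk hTk e hind
      Z.cls (fun i => (Z.mat i).det.toNat) x s
      (fun i => by
        have := Z.det_pos i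
        omega)
      (fun i hi => alg_of_int Γ' (h1 i hi)) ?_
      h2 S hSk V
      (fun l => (V l).valuation (aeval (fun j => (t j : ℂ)) (D l))) hVD
      (fun l i hi => v_le_of_int Γ' (V l) (hΓV _ (hVW' l)) (h1 i hi))
      (fun l => (hnear (V l) (hVW' l)).1) hVx
      (fun l => (hnear (V l) (hVW' l)).2 l (fun j => (t j : ℂ)) (fun j => intCast_mem _ _)
        (hVD l) (hVE l) s y hy.1 hy.2 (fun i => (hxy i).2))
    intro i j l hi hj
    have h5 := rel_of_locus Z hxZ i j l hi hj
    rw [Int.toNat_mul (Z.det_pos i).le (Z.det_pos j).le] at h5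
    exact h5
  refine ⟨?_, hpt⟩
  intro A' hA' hcl' hprime
  obtain ⟨x, hxW, T', hT', hdim⟩ := Pool.Agent.W466.ZC.generic_dim K A' hprime hcl'
  have h2 := hpt x (hA' hxW) T' hT'
  calc zdim A' + (n : Cardinal) ≤ (T'.card : Cardinal) + (n : Cardinal) := by gcongr
    _ = ((T'.card + n : ℕ) : Cardinal) := by push_cast; rfl
    _ ≤ ((r' + m : ℕ) : Cardinal) := by exact_mod_cast h2
    _ = (r' : Cardinal) + (m : Cardinal) := by push_cast; rfl

end Pool.Agent.Q170.ZP.Multi
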