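import Pool.Agent.Y152.RP.Fam
import Pool.Agent.Q170.ZP.Core

/-!
Families with several parameters of subsets of products of modular curves and tori: valuation rings
which are good for the members near to the degenerate ones, where the family degenerates along
hypersurfaces `D l = 0`, outside of hypersurfaces `E l = 0` (helper file).
-/

set_option autoImplicit false

open Function UpperHalfPlane H294ZP MvPolynomial Pool.Agent.W466.ZC Pool.Agent.TH526.ZL

namespace Pool.Agent.Q170.ZP.Multi

section cert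

variable {k : Type} [Field k] [Algebra k ℂ] {σ : Type*} [Finite σ]

/-- The certificate: a power of a polynomial which vanishes at the common zeros. -/
theorem certP [IsAlgClosed k] {β κ : Type*} [Fintype β] (G : κ → MvPolynomial σ k)
    (F : β → MvPolynomial σ k) (h : MvPolynomial σ k)
    (hs : ∀ y : σ → ℂ, (∀ i, aeval y (G i) = 0) → (∀ b, aeval y (F b) = 0) → aeval y h = 0) :
    ∃ (M : ℕ) (U : β → MvPolynomial σ k), ∀ y : σ → ℂ, (∀ i, aeval y (G i) = 0) →
      aeval y h ^ M = ∑ b, aeval y (U b) * aeval y (F b) := by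
  classical
  let J1 : Ideal (MvPolynomial σ k) := Ideal.span (Set.range F)
  let J2 : Ideal (MvPolynomial σ k) := Ideal.span (Set.range G)
  have hrad : h ∈ (J1 ⊔ J2).radical := by
    rw [← vanishingIdeal_zeroLocus_eq_radical (K := k), mem_vanishingIdeal_iff]
    intro y hy
    rw [mem_zeroLocus_iff] at hy
    have hmap : ∀ P : MvPolynomial σ k, aeval (fun j => algebraMap k ℂ (y j)) P =
        algebraMap k ℂ (aeval y P) := by
      intro P
      exact MvPolynomial.aeval_algebraMap_apply ℂ y P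
    have hy0 : aeval (fun j => algebraMap k ℂ (y j)) h = 0 := by
      apply hs
      · intro i
        rw [hmap, hy _ (Ideal.mem_sup_right (Ideal.subset_span ⟨i, rfl⟩)), map_zero]
      · intro b
        rw [hmap, hy _ (Ideal.mem_sup_left (Ideal.subset_span ⟨b, rfl⟩)), map_zero]
    rw [hmap] at hy0
    exact (map_eq_zero _).1 hy0
  obtain ⟨M, hM⟩ := hrad
  obtain ⟨u, hu, w, hw, huw⟩ := Submodule.mem_sup.1 hM
  obtain ⟨A, hA⟩ := (Ideal.mem_span_range_iff_exists_fun).1 hu
  refine ⟨M, A, fun y hy => ?_⟩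
  have hw0 : aeval y w = 0 := by
    have h3 : J2 ≤ RingHom.ker (aeval y : MvPolynomial σ k →ₐ[k] ℂ) := by
      rw [Ideal.span_le]
      rintro _ ⟨i, rfl⟩
      rw [SetLike.mem_coe, RingHom.mem_ker]
      exact hy i
    exact h3 hw
  have h4 := congrArg (aeval (R := k) y) huw
  rw [map_add, hw0, add_zero, ← hA, map_sum, map_pow] at h4
  rw [← h4]
  refine Finset.sum_congr rfl fun b _ => ?_
  rw [map_mul]

end cert

section ev

variable {K : Type} [Field K] [Algebra K ℂ] {r : ℕ}

/-- the value at a complex point of a polynomial in the parameters -/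
noncomputable def evM (K : Type) [Field K] [Algebra K ℂ] {r : ℕ} (t : Fin r → ℂ) :
    MvPolynomial (Fin r) K →+* ℂ :=
  (aeval t : MvPolynomial (Fin r) K →ₐ[K] ℂ).toRingHom

theorem evM_apply (t : Fin r → ℂ) (P : MvPolynomial (Fin r) K) : evM K t P = aeval t P := rfl

theorem evM_int (t : Fin r → ℂ) (P : MvPolynomial (Fin r) ℤ) :
    evM K t (MvPolynomial.map (Int.castRingHom K) P) = aeval t P := by
  rw [evM_apply, aeval_def, eval₂_map, aeval_def]
  congr 1
  exact RingHom.ext_int _ _

theorem ev_smul {τ : Type*} [Fintype τ] (t : Fin r → ℂ) {P : MvPolynomial τ (MvPolynomial (Fin r) K)}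
    {e : ℕ} (hP : P.IsHomogeneous e) (c : ℂ) (y : τ → ℂ) :
    eval₂ (evM K t) (c • y) P = c ^ e * eval₂ (evM K t) y P := by
  have h1 := eval_smul (hP.map (evM K t)) c y
  rwa [eval_map, eval_map] at h1

variable {k : Type} [Field k] [Algebra k ℂ] [Algebra K k] [IsScalarTower K k ℂ]

/-- a polynomial whose coefficients are polynomials in the parameters as a polynomial -/
noncomputable def flat (k : Type) [Field k] [Algebra K k] {τ : Type*} :
    MvPolynomial τ (MvPolynomial (Fin r) K) →+* MvPolynomial (Fin r ⊕ τ) k :=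
  eval₂Hom ((rename (Sum.inl : Fin r → Fin r ⊕ τ) : MvPolynomial (Fin r) k →ₐ[k]
    MvPolynomial (Fin r ⊕ τ) k).toRingHom.comp (MvPolynomial.map (algebraMap K k)))
    (fun j => X (Sum.inr j))

omit [IsScalarTower K k ℂ] in
theorem aeval_flat [IsScalarTower K k ℂ] {τ : Type*} (t : Fin r → ℂ) (y : τ → ℂ)
    (P : MvPolynomial τ (MvPolynomial (Fin r) K)) :
    aeval (Sum.elim t y) (flat k P) = eval₂ (evM K t) y P := by
  have h : ((aeval (Sum.elim t y) : MvPolynomial (Fin r ⊕ τ) k →ₐ[k] ℂ).toRingHom).comp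
      (flat (K := K) (r := r) k) = eval₂Hom (evM K t) y := by
    refine MvPolynomial.ringHom_ext (fun a => ?_) (fun j => ?_)
    · simp only [flat, RingHom.comp_apply, coe_eval₂Hom, eval₂_C, AlgHom.toRingHom_eq_coe,
        RingHom.coe_coe, aeval_rename, Sum.elim_comp_inl]
      rw [evM_apply, MvPolynomial.aeval_map_algebraMap]
    · simp only [flat, RingHom.comp_apply, coe_eval₂Hom, eval₂_X, AlgHom.toRingHom_eq_coe,
        RingHom.coe_coe, aeval_X, Sum.elim_inr]
  exact congrArg (fun f : _ →+* ℂ => f P) h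

/-- a polynomial in the parameters with integral coefficients -/
noncomputable def ipol (k : Type) [Field k] {τ : Type*} (P : MvPolynomial (Fin r) ℤ) :
    MvPolynomial (Fin r ⊕ τ) k :=
  rename Sum.inl (MvPolynomial.map (Int.castRingHom k) P)

omit [Algebra K k] [IsScalarTower K k ℂ] in
theorem aeval_ipol {τ : Type*} (t : Fin r → ℂ) (y : τ → ℂ) (P : MvPolynomial (Fin r) ℤ) :
    aeval (Sum.elim t y) (ipol k P : MvPolynomial (Fin r ⊕ τ) k) = aeval t P := by
  rw [ipol, aeval_rename, Sum.elim_comp_inl, aeval_def, eval₂_map, aeval_def]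
  congr 1
  exact RingHom.ext_int _ _

theorem aeval_int_mem (V : ValuationSubring ℂ) {t : Fin r → ℂ} (ht : ∀ j, t j ∈ V)
    (P : MvPolynomial (Fin r) ℤ) : aeval t P ∈ V := by
  rw [aeval_def, eval₂_eq']
  exact sum_mem fun u _ => mul_mem (intCast_mem V _) (prod_mem fun j _ => pow_mem (ht j) _)

end ev

variable {K : Type} [Field K] [Algebra K ℂ] {k : Type} [Field k] [Algebra k ℂ] [Algebra K k]
  [IsScalarTower K k ℂ] {r : ℕ}

/-- Good valuation rings for the members of a family which are near to the degenerate ones. -/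
theorem goodP [IsAlgClosed k] {τ : Type*} [Fintype τ] {κ : Type} [Finite κ]
    {ι : Type} [Fintype ι] [DecidableEq ι] {m L : ℕ}
    (G : κ → MvPolynomial τ (MvPolynomial (Fin r) K))
    (hhom : ∀ i, ∃ e, (G i).IsHomogeneous e) (A B : ι → MvPolynomial τ (MvPolynomial (Fin r) K))
    (D E : Fin L → MvPolynomial (Fin r) ℤ)
    (hdis : ∀ l (t : Fin r → ℂ), aeval t (D l) = 0 → aeval t (E l) ≠ 0 →
      ∀ I : Finset ι, I.card = m + 1 → ∀ y : τ → ℂ,
      (∀ i, eval₂ (evM K t) y (G i) = 0) →
      (∀ i ∈ I, eval₂ (evM K t) y (A i) * eval₂ (evM K t) y (B i) = 0) → y = 0) :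
    ∃ W : Set k, W.Finite ∧ ∀ V : ValuationSubring ℂ, (∀ z ∈ W, algebraMap k ℂ z ∈ V) →
      ∀ (l : Fin L) (t : Fin r → ℂ), (∀ j, t j ∈ V) → V.valuation (aeval t (D l)) < 1 →
      V.valuation (aeval t (E l)) = 1 →
      ∀ y : τ → ℂ, y ≠ 0 → (∀ i, eval₂ (evM K t) y (G i) = 0) →
        ∃ c : ℂ, c ≠ 0 ∧ (∀ i, eval₂ (evM K t) (c • y) (A i) ∈ V ∧
          eval₂ (evM K t) (c • y) (B i) ∈ V) ∧
          ∀ I : Finset ι, I.card = m + 1 → ∃ i ∈ I,
            V.valuation (eval₂ (evM K t) (c • y) (A i) * eval₂ (evM K t) (c • y) (B i)) = 1 := by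
  classical
  have := Fintype.ofFinite κ
  have hcert := fun (l : Fin L) (I : {I : Finset ι // I.card = m + 1}) (j : τ) =>
    certP (k := k) (fun i => flat k (G i))
      (fun b : Option I.1 => Option.elim b (ipol k (D l))
        (fun i : I.1 => flat k (A i) * flat k (B i)))
      (ipol k (E l) * X (Sum.inr j)) (by
        intro z hG hF
        obtain ⟨t, y, rfl⟩ : ∃ t y, z = Sum.elim t y :=
          ⟨fun a => z (Sum.inl a), fun a => z (Sum.inr a), by
            funext a
            rcases a with a | a <;> rfl⟩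
        rw [map_mul, aeval_X, Sum.elim_inr, aeval_ipol]
        by_cases hE : aeval t (E l) = 0
        · rw [hE, zero_mul]
        · have hD : aeval t (D l) = 0 := by
            have h1 := hF none
            simp only [Option.elim_none] at h1
            rwa [aeval_ipol] at h1
          have h2 := hdis l t hD hE I.1 I.2 y (fun i => by
            have h3 := hG i
            rwa [aeval_flat] at h3) (fun i hi => by
            have h3 := hF (some ⟨i, hi⟩)
            simp only [Option.elim_some] at h3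
            rwa [map_mul, aeval_flat, aeval_flat] at h3)
          rw [h2, Pi.zero_apply, mul_zero])
  choose M' U hU using hcert
  let W : Set k := (⋃ q : (Fin L) × {I : Finset ι // I.card = m + 1} × τ,
      ⋃ b : Option q.2.1.1, coefsP (U q.1 q.2.1 q.2.2 b)) ∪
    ((⋃ i, coefsP (flat k (A i))) ∪ (⋃ i, coefsP (flat k (B i))))
  have hWfin : W.Finite := by
    refine Set.Finite.union (Set.finite_iUnion fun q => Set.finite_iUnion fun b =>
      coefsP_finite _) (Set.Finite.union (Set.finite_iUnion fun i => coefsP_finite _)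
      (Set.finite_iUnion fun i => coefsP_finite _))
  refine ⟨W, hWfin, fun V hW => ?_⟩
  intro l t htV hDl hEl y hy0 hyG
  have hUV : ∀ I j b, ∀ u ∈ (U l I j b).support, algebraMap k ℂ ((U l I j b).coeff u) ∈ V := by
    intro I j b u hu
    exact hW _ (Or.inl (Set.mem_iUnion.2 ⟨(l, I, j), Set.mem_iUnion.2 ⟨b, ⟨u, hu, rfl⟩⟩⟩))
  have hmem : ∀ z : τ → ℂ, (∀ j, z j ∈ V) → ∀ j : Fin r ⊕ τ, Sum.elim t z j ∈ V := by
    intro z hz j
    rcases j with j | j
    · exact htV j
    · exact hz j
  have hAV : ∀ (z : τ → ℂ), (∀ j, z j ∈ V) → ∀ i, eval₂ (evM K t) z (A i) ∈ V := by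
    intro z hz i
    rw [← aeval_flat (k := k)]
    exact aeval_mem V _ (fun u hu => hW _ (Or.inr (Or.inl (Set.mem_iUnion.2 ⟨i, ⟨u, hu, rfl⟩⟩))))
      (hmem z hz)
  have hBV : ∀ (z : τ → ℂ), (∀ j, z j ∈ V) → ∀ i, eval₂ (evM K t) z (B i) ∈ V := by
    intro z hz i
    rw [← aeval_flat (k := k)]
    exact aeval_mem V _ (fun u hu => hW _ (Or.inr (Or.inr (Set.mem_iUnion.2 ⟨i, ⟨u, hu, rfl⟩⟩))))
      (hmem z hz)
  set v := V.valuation with hv
  have hne : (Finset.univ : Finset τ).Nonempty := by
    by_contra h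
    rw [Finset.not_nonempty_iff_eq_empty, Finset.univ_eq_empty_iff] at h
    exact hy0 (funext fun j => (h.false j).elim)
  obtain ⟨j0, -, hj0⟩ := Finset.exists_max_image Finset.univ (fun j => v (y j)) hne
  have hyj0 : y j0 ≠ 0 := by
    intro h
    apply hy0
    funext j
    have h1 := hj0 j (Finset.mem_univ j)
    simp only [h, map_zero, le_zero_iff] at h1
    exact (map_eq_zero v).1 h1
  set z := (y j0)⁻¹ • y with hz
  have hzV : ∀ j, z j ∈ V := by
    intro j
    rw [← ValuationSubring.valuation_le_one_iff, hz, Pi.smul_apply, smul_eq_mul, map_mul, map_inv₀]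
    have h1 := hj0 j (Finset.mem_univ j)
    have h2 : v (y j0) ≠ 0 := (map_ne_zero v).2 hyj0
    calc (v (y j0))⁻¹ * v (y j) ≤ (v (y j0))⁻¹ * v (y j0) := mul_le_mul_right h1 _
      _ = 1 := inv_mul_cancel₀ h2
  have hzG : ∀ i, eval₂ (evM K t) z (G i) = 0 := by
    intro i
    obtain ⟨e, he⟩ := hhom i
    rw [hz, ev_smul t he, hyG i, mul_zero]
  refine ⟨(y j0)⁻¹, inv_ne_zero hyj0, fun i => ⟨hAV z hzV i, hBV z hzV i⟩, ?_⟩
  intro I hI
  by_contra hcon
  push Not at hcon
  have hlt : ∀ i ∈ I, v (eval₂ (evM K t) z (A i) * eval₂ (evM K t) z (B i)) < 1 := by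
    intro i hi
    refine lt_of_le_of_ne ?_ (hcon i hi)
    rw [ValuationSubring.valuation_le_one_iff]
    exact mul_mem (hAV z hzV i) (hBV z hzV i)
  have h1 := hU l ⟨I, hI⟩ j0 (Sum.elim t z) (fun i => by rw [aeval_flat]; exact hzG i)
  have h2 : z j0 = 1 := by
    rw [hz, Pi.smul_apply, smul_eq_mul, inv_mul_cancel₀ hyj0]
  rw [map_mul, aeval_X, Sum.elim_inr, aeval_ipol, h2, mul_one] at h1
  have h3 : v (∑ b : Option I, aeval (Sum.elim t z) (U l ⟨I, hI⟩ j0 b) *
      aeval (Sum.elim t z) (Option.elim b (ipol k (D l))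
        (fun i : I => flat k (A i) * flat k (B i)))) < 1 := by
    refine Valuation.map_sum_lt _ one_ne_zero fun b _ => ?_
    rw [map_mul]
    refine (mul_le_of_le_one_left' ((ValuationSubring.valuation_le_one_iff _ _).2
      (aeval_mem V _ (hUV ⟨I, hI⟩ j0 b) (hmem z hzV)))).trans_lt ?_
    rcases b with _ | i
    · simp only [Option.elim_none]
      rw [aeval_ipol]
      exact hDl
    · simp only [Option.elim_some, map_mul (aeval (Sum.elim t z))]
      rw [aeval_flat, aeval_flat]
      exact hlt i i.2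
  rw [← h1, map_pow, hEl, one_pow] at h3
  exact lt_irrefl _ h3

/-- The data at the places near to the degenerate members. -/
theorem nearP [IsAlgClosed k] {κ : Type} [Finite κ]
    {ι : Type} [Fintype ι] [DecidableEq ι] {N n m L : ℕ}
    (G : κ → MvPolynomial (Fin (N + 1)) (MvPolynomial (Fin r) K))
    (hG : ∀ i, ∃ e, (G i).IsHomogeneous e)
    (A B : ι → MvPolynomial (Fin (N + 1)) (MvPolynomial (Fin r) K)) (d : ι → ℕ)
    (hA : ∀ i, (A i).IsHomogeneous (d i)) (hB : ∀ i, (B i).IsHomogeneous (d i))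
    (R : Fin n → Polynomial (Polynomial k)) (c : ι → MvPolynomial (Fin r) K)
    (D E : Fin L → MvPolynomial (Fin r) ℤ) (b : Fin L → ι → MvPolynomial (Fin r) K)
    (e : Fin L → ι → ℕ)
    (hc : ∀ l i, c i = MvPolynomial.map (Int.castRingHom K) (D l) ^ e l i * b l i)
    (hdis : ∀ l (t : Fin r → ℂ), aeval t (D l) = 0 → aeval t (E l) ≠ 0 →
      (∀ I : Finset ι, I.card = m + 1 → ∀ y : Fin (N + 1) → ℂ,
      (∀ i, eval₂ (evM K t) y (G i) = 0) →
      (∀ i ∈ I, eval₂ (evM K t) y (A i) * eval₂ (evM K t) y (B i) = 0) → y = 0) ∧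
      ∀ i, evM K t (b l i) ≠ 0)
    (Γ : Set k) (hΓ : Γ.Finite) :
    ∃ W : Set k, W.Finite ∧ Γ ⊆ W ∧ ∀ V : ValuationSubring ℂ, (∀ z ∈ W, algebraMap k ℂ z ∈ V) →
      (∀ i u w, ((R i).coeff u).coeff w ≠ 0 →
        V.valuation (algebraMap k ℂ (((R i).coeff u).coeff w)) = 1) ∧
      ∀ (l : Fin L) (t : Fin r → ℂ), (∀ j, t j ∈ V) → V.valuation (aeval t (D l)) < 1 →
      V.valuation (aeval t (E l)) = 1 →
      ∀ (s : ι → ℂ) (y : Fin (N + 1) → ℂ), y ≠ 0 → (∀ i, eval₂ (evM K t) y (G i) = 0) →
      (∀ i, evM K t (c i) * eval₂ (evM K t) y (B i) * s i = eval₂ (evM K t) y (A i)) →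
      ∃ E' : Finset ι, E'.card ≤ m ∧ ∀ i, i ∉ E' → V.valuation (s i) *
        V.valuation (aeval t (D l)) ^ e l i = 1 := by
  classical
  -- the certificates for the cofactors
  have hcert := fun (l : Fin L) (i : ι) =>
    certP (k := k) (fun a : Empty => (a.elim : MvPolynomial (Fin r ⊕ Empty) k))
      (fun a : Bool => bif a then (ipol k (D l) : MvPolynomial (Fin r ⊕ Empty) k) else
        flat k (C (b l i))) (ipol k (E l)) (by
        intro z _ hF
        obtain ⟨t, y, rfl⟩ : ∃ t y, z = Sum.elim t y :=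
          ⟨fun a => z (Sum.inl a), fun a => z (Sum.inr a), by
            funext a
            rcases a with a | a <;> rfl⟩
        rw [aeval_ipol]
        by_contra hE
        have hD : aeval t (D l) = 0 := by
          have h1 := hF true
          simp only [cond_true] at h1
          rwa [aeval_ipol] at h1
        have h2 := hF false
        simp only [cond_false] at h2
        rw [aeval_flat, eval₂_C] at h2
        exact (hdis l t hD hE).2 i h2)
  choose M' U hU using hcert
  let W1 : Set k := ⋃ i, ⋃ u ∈ ((R i).support : Set ℕ), coefs1 ((R i).coeff u)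
  have hW1 : W1.Finite := Set.finite_iUnion fun i =>
      (R i).support.finite_toSet.biUnion fun u _ => coefs1_finite _
  let W4 : Set k := ⋃ q : Fin L × ι, (coefsP (U q.1 q.2 true) ∪ coefsP (U q.1 q.2 false)) ∪
    coefsP (flat k (C (b q.1 q.2) : MvPolynomial Empty (MvPolynomial (Fin r) K)))
  have hW4 : W4.Finite := Set.finite_iUnion fun q =>
    ((coefsP_finite _).union (coefsP_finite _)).union (coefsP_finite _)
  obtain ⟨W3, hW3, hgood⟩ := goodP (k := k) (m := m) G hG A B D E
    (fun l t hD hE => (hdis l t hD hE).1)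
  let W2 : Set k := W1 ∪ ((fun z => z⁻¹) '' W1 ∪ (W4 ∪ (Γ ∪ W3)))
  have hW2 : W2.Finite :=
    hW1.union ((hW1.image _).union (hW4.union (hΓ.union hW3)))
  refine ⟨W2, hW2, fun z hz => Or.inr (Or.inr (Or.inr (Or.inl hz))), fun V hV => ?_⟩
  have hW1V : ∀ z ∈ W1, algebraMap k ℂ z ∈ V := fun z hz => hV z (Or.inl hz)
  have hW1V' : ∀ z ∈ W1, algebraMap k ℂ z⁻¹ ∈ V := fun z hz =>
    hV _ (Or.inr (Or.inl ⟨z, hz, rfl⟩))
  have hW4V : ∀ z ∈ W4, algebraMap k ℂ z ∈ V := fun z hz =>
    hV _ (Or.inr (Or.inr (Or.inl hz)))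
  refine ⟨fun i u w h0 => ?_, fun l t htV hDl hEl s y hy0 hyG hxy => ?_⟩
  · refine v_unit V hW1V hW1V' (Set.mem_iUnion.2 ⟨i, ?_⟩) h0
    refine Set.mem_biUnion (x := u) ?_ ⟨w, Polynomial.mem_support_iff.2 h0, rfl⟩
    rw [Finset.mem_coe, Polynomial.mem_support_iff]
    intro h1
    rw [h1, Polynomial.coeff_zero] at h0
    exact h0 rfl
  · have hmem : ∀ j : Fin r ⊕ Empty, Sum.elim t (fun a : Empty => (a.elim : ℂ)) j ∈ V := by
      intro j
      rcases j with j | j
      · exact htV j
      · exact j.elim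
    have hbV : ∀ i, V.valuation (evM K t (b l i)) = 1 := by
      intro i
      have hle : V.valuation (evM K t (b l i)) ≤ 1 := by
        have h1 : evM K t (b l i) = aeval (Sum.elim t (fun a : Empty => (a.elim : ℂ)))
            (flat k (C (b l i) : MvPolynomial Empty (MvPolynomial (Fin r) K))) := by
          rw [aeval_flat, eval₂_C]
        rw [h1]
        exact (ValuationSubring.valuation_le_one_iff _ _).2 (aeval_mem V _ (fun u hu =>
          hW4V _ (Set.mem_iUnion.2 ⟨(l, i), Or.inr ⟨u, hu, rfl⟩⟩)) hmem)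
      refine le_antisymm hle ?_
      by_contra hlt
      push Not at hlt
      have h1 := hU l i (Sum.elim t (fun a : Empty => (a.elim : ℂ))) (fun a => a.elim)
      rw [Fintype.sum_bool, aeval_ipol] at h1
      simp only [cond_true, cond_false] at h1
      rw [aeval_ipol, aeval_flat, eval₂_C] at h1
      have hUm : ∀ a, V.valuation (aeval (Sum.elim t (fun a : Empty => (a.elim : ℂ)))
          (U l i a)) ≤ 1 := by
        intro a
        refine (ValuationSubring.valuation_le_one_iff _ _).2 (aeval_mem V _ (fun u hu =>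
          hW4V _ (Set.mem_iUnion.2 ⟨(l, i), Or.inl ?_⟩)) hmem)
        cases a
        · exact Or.inr ⟨u, hu, rfl⟩
        · exact Or.inl ⟨u, hu, rfl⟩
      have h2 : V.valuation (aeval t (E l) ^ M' l i) < 1 := by
        rw [h1]
        refine Valuation.map_add_lt _ ?_ ?_
        · rw [map_mul]
          exact (mul_le_of_le_one_left' (hUm true)).trans_lt hDl
        · rw [map_mul]
          exact (mul_le_of_le_one_left' (hUm false)).trans_lt hlt
      rw [map_pow, hEl, one_pow] at h2
      exact lt_irrefl _ h2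
    have hcv : ∀ i, V.valuation (evM K t (c i)) = V.valuation (aeval t (D l)) ^ e l i := by
      intro i
      rw [hc l i, map_mul, map_pow, evM_int, map_mul, map_pow, hbV, mul_one]
    obtain ⟨a, ha0, hAB, hI⟩ := hgood V (fun z hz => hV z (Or.inr (Or.inr (Or.inr (Or.inr hz)))))
      l t htV hDl hEl y hy0 hyG
    refine ⟨Finset.univ.filter fun i => ¬ V.valuation (eval₂ (evM K t) (a • y) (A i) *
      eval₂ (evM K t) (a • y) (B i)) = 1, ?_, ?_⟩
    · by_contra h
      push Not at h
      obtain ⟨I, hIE, hIc⟩ := Finset.exists_subset_card_eq (Nat.succ_le_of_lt h)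
      obtain ⟨i, hi, h1⟩ := hI I hIc
      exact (Finset.mem_filter.1 (hIE hi)).2 h1
    · intro i hi
      rw [Finset.mem_filter] at hi
      push Not at hi
      have h1 := hi (Finset.mem_univ i)
      have hA1 := (ValuationSubring.valuation_le_one_iff _ _).2 (hAB i).1
      have hB1 := (ValuationSubring.valuation_le_one_iff _ _).2 (hAB i).2
      rw [map_mul] at h1
      have hA2 : V.valuation (eval₂ (evM K t) (a • y) (A i)) = 1 := by
        refine le_antisymm hA1 ?_
        by_contra h
        push Not at h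
        have h2 := (mul_le_of_le_one_right' hB1).trans_lt h
        rw [h1] at h2
        exact lt_irrefl _ h2
      have hB2 : V.valuation (eval₂ (evM K t) (a • y) (B i)) = 1 := by
        rw [hA2, one_mul] at h1
        exact h1
      have h3 : evM K t (c i) * eval₂ (evM K t) (a • y) (B i) * s i =
          eval₂ (evM K t) (a • y) (A i) := by
        rw [ev_smul t (hA i), ev_smul t (hB i), ← hxy i]
        ring
      have h4 := congrArg V.valuation h3
      rw [map_mul, map_mul, hA2, hB2, mul_one, hcv] at h4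
      rw [mul_comm]
      exact h4

end Pool.Agent.Q170.ZP.Multi
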