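import Pool.Agent.TH526.ZL.F
import Pool.Agent.Q170.ZP.Core

/-!
The combinatorial core in products of modular curves and tori, with a number of places which does not
depend on the number of the modular curves (helper file; the first part of the proof is that of
`Pool.Agent.Y152.RP.coreMV`).
-/

set_option autoImplicit false

open Function UpperHalfPlane H294ZP MvPolynomial Pool.Agent.W466.ZC Pool.Agent.TH526.ZL

namespace Pool.Agent.Q170.ZP

/-- the number of the places for the torus: `(k - 1)` times the number of subsets of the torus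
coordinates with at most `m` elements -/
def torB (k m : ℕ) : ℕ := (k - 1) * ∑ i ∈ Finset.range (m + 1), k.choose i

theorem card_small {k m : ℕ} : (k - 1) *
    (Finset.univ.filter fun Y : Finset (Fin k) => Y.card ≤ m).card = torB k m := by
  classical
  rw [torB]
  congr 1
  rw [Finset.card_eq_sum_card_fiberwise (f := Finset.card) (t := Finset.range (m + 1))
    (fun Y hY => by
      have h1 := (Finset.mem_filter.1 (Finset.mem_coe.1 hY)).2
      exact Finset.mem_coe.2 (Finset.mem_range.2 (by omega)))]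
  refine Finset.sum_congr rfl fun i hi => ?_
  rw [Finset.filter_filter]
  have h1 : (Finset.univ.filter fun Y : Finset (Fin k) => Y.card ≤ m ∧ Y.card = i) =
      Finset.powersetCard i Finset.univ := by
    ext Y
    rw [Finset.mem_filter, Finset.mem_powersetCard]
    have := Finset.mem_range.1 hi
    constructor
    · rintro ⟨-, -, h⟩
      exact ⟨Finset.subset_univ _, h⟩
    · rintro ⟨-, h⟩
      exact ⟨Finset.mem_univ _, by omega, h⟩
  rw [h1, Finset.card_powersetCard, Finset.card_univ, Fintype.card_fin]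

/-- The combinatorial core. -/
theorem coreMW {Λ : Type} [CommRing Λ] [IsDomain Λ] [Algebra Λ ℂ] {F : Type} [Field F]
    [Algebra F ℂ] {n k m T L : ℕ} (hL : m + 1 + torB k m + 1 ≤ L)
    (R : Fin n → Polynomial (Polynomial Λ)) (hR : ∀ i, (R i).Monic)
    (hT : ∀ i u w, ((R i).coeff u).coeff w ≠ 0 → u ≤ T ∧ w ≤ T)
    (e : Fin L → Fin n ⊕ Fin k → ℕ) (he : ∀ l i, 0 < e l i)
    (hsq : ∀ f : Fin (m + 2) → Fin L, Function.Injective f →
      IndExp T fun l i => e (f l) (Sum.inl i))
    (hlin : ∀ (s : Finset (Fin L)) (b : Fin k → ℤ), k ≤ s.card →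
      (∀ l ∈ s, ∑ j, b j * (e l (Sum.inr j) : ℤ) = 0) → b = 0)
    {r : ℕ} (cls : Fin n → Option (Fin r)) (δ : Fin n → ℕ) (x : Fin n ⊕ Fin k → ℂ)
    (s : Fin n → ℂ) (M : Submodule ℤ (Fin k → ℤ)) (η : Fin k → ℂ)
    (hδ : ∀ i, 0 < δ i)
    (hconst : ∀ i, cls i = none → IsAlgebraic Λ (x (Sum.inl i)))
    (hrel : ∀ i j l, cls i = some l → cls j = some l →
        IsIntegral (Algebra.adjoin ℤ {x (Sum.inl i)}) (x (Sum.inl j)) ∧
        Polynomial.eval₂ (Polynomial.aeval (x (Sum.inl i)) : Polynomial ℂ →ₐ[ℂ] ℂ).toRingHom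
          (x (Sum.inl j)) (W282.ZP.Psi (δ i * δ j)) = 0)
    (hRs : ∀ i, Polynomial.eval₂
      (Polynomial.aeval (x (Sum.inl i)) : Polynomial Λ →ₐ[Λ] ℂ).toRingHom (s i) (R i) = 0)
    (hx0 : ∀ j, x (Sum.inr j) ≠ 0) (hηF : ∀ j, ∃ u : F, η j = algebraMap F ℂ u)
    (hM : ∀ a ∈ M, W282.ZP.chi (fun j => x (Sum.inr j)) a = W282.ZP.chi η a)
    (S : Finset (Fin n ⊕ Fin k)) (hS : AlgebraicIndependent Λ (fun i : S => x i))
    (hSF : AlgebraicIndependent F (fun i : S => x i))
    (V : Fin L → ValuationSubring ℂ) (g : ∀ l, (V l).ValueGroup)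
    (hg0 : ∀ l, g l ≠ 0) (hg : ∀ l, g l < 1)
    (hVc : ∀ l i, cls i = none → (V l).valuation (x (Sum.inl i)) ≤ 1)
    (hVR : ∀ l i u w, ((R i).coeff u).coeff w ≠ 0 →
      (V l).valuation (algebraMap Λ ℂ (((R i).coeff u).coeff w)) = 1)
    (hVx : ∀ l (i : S), (V l).valuation (x i) = 1)
    (hVη : ∀ l j, (V l).valuation (η j) = 1)
    (hgood : ∀ l, ∃ E : Finset (Fin n ⊕ Fin k), E.card ≤ m ∧
      (∀ i, Sum.inl i ∉ E → (V l).valuation (s i) * g l ^ e l (Sum.inl i) = 1) ∧
      ∀ j, Sum.inr j ∉ E → (V l).valuation (x (Sum.inr j)) * g l ^ e l (Sum.inr j) = 1) :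
    S.card + n + Module.finrank ℤ M ≤ r + m := by
  classical
  have hQ : ∀ i j, 0 < δ i * δ j := fun i j => Nat.mul_pos (hδ i) (hδ j)
  have hV1 : ∀ l i j k, cls i = some k → cls j = some k → (V l).valuation (x (Sum.inl i)) ≤ 1 →
      (V l).valuation (x (Sum.inl j)) ≤ 1 := by
    intro l i j k hi hj h1
    exact ((W282.ZP.Psi_spec (hQ i j)).2.2 ℂ (V l) _ _ (hrel i j k hi hj).2).1 h1
  -- the two parts of `S`
  let U : Finset (Fin n) := S.toLeft
  let T' : Finset (Fin k) := S.toRight
  have hScard : U.card + T'.card = S.card := S.card_toLeft_add_card_toRight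
  have hSsome : ∀ t : U, ∃ k, cls t = some k := by
    intro t
    have ht : Sum.inl (t : Fin n) ∈ S := Finset.mem_toLeft.1 t.2
    cases hc : cls t with
    | none => exact ((hS.transcendental ⟨Sum.inl t, ht⟩) (hconst t hc)).elim
    | some k => exact ⟨k, rfl⟩
  choose cl hcl using hSsome
  have hclinj : Function.Injective cl := by
    intro t t' htt
    by_contra hne
    refine not_algInd'' hS (i := ⟨Sum.inl (t : Fin n), Finset.mem_toLeft.1 t.2⟩)
      (j := ⟨Sum.inl (t' : Fin n), Finset.mem_toLeft.1 t'.2⟩) ?_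
      (hrel t t' (cl t) (hcl t) (by rw [htt]; exact hcl t')).1
    intro h
    apply hne
    have h1 := Sum.inl_injective (congrArg Subtype.val h)
    exact Subtype.ext h1
  -- the lattice of relations, enlarged by the independent torus coordinates
  set xt : Fin k → ℂ := fun j => x (Sum.inr j) with hxt
  have hT' : AlgebraicIndependent F (fun j : T' => xt j) := by
    have h1 := hSF.comp (fun j : T' => (⟨Sum.inr (j : Fin k), Finset.mem_toRight.1 j.2⟩ : S))
      (by
        intro j j' h
        have h1 := Sum.inr_injective (congrArg Subtype.val h)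
        exact Subtype.ext h1)
    exact h1
  let M' : Submodule ℤ (Fin k → ℤ) :=
    M ⊔ Submodule.span ℤ ((fun j => Pi.single j (1 : ℤ)) '' (T' : Set (Fin k)))
  have hfin : Module.finrank ℤ M + T'.card ≤ Module.finrank ℤ M' := by
    refine W282.ZP.finrank_add_card' xt hx0 T' hT' M ?_ M' le_sup_left ?_
    · intro a ha
      choose u hu using hηF
      refine ⟨∏ j, u j ^ a j, ?_⟩
      rw [hM a ha, W282.ZP.chi, map_prod]
      refine Finset.prod_congr rfl fun j _ => ?_
      rw [map_zpow₀, hu]
    · intro j hj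
      exact Submodule.mem_sup_right (Submodule.subset_span ⟨j, hj, rfl⟩)
  have hv0 : ∀ l i, (V l).valuation (xt i) ≠ 0 := fun l i => (Valuation.ne_zero_iff _).2 (hx0 i)
  have hle : ∀ l, M' ≤ W282.ZP.oneLat (fun i => (V l).valuation (xt i)) (hv0 l) := by
    intro l
    refine sup_le ?_ (Submodule.span_le.2 ?_)
    · intro b hb
      change W282.ZP.chi (fun i => (V l).valuation (xt i)) b = 1
      have h1 : W282.ZP.chi (fun i => (V l).valuation (xt i)) b =
          (V l).valuation (W282.ZP.chi xt b) := by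
        simp [W282.ZP.chi]
      rw [h1, hM b hb]
      simp only [W282.ZP.chi, map_prod, map_zpow₀, hVη l, one_zpow, Finset.prod_const_one]
    · rintro _ ⟨j, hj, rfl⟩
      change W282.ZP.chi (fun i => (V l).valuation (xt i)) (Pi.single j (1 : ℤ)) = 1
      rw [W282.ZP.chi_single]
      exact hVx l ⟨Sum.inr j, Finset.mem_toRight.1 hj⟩
  by_contra hcon
  push Not at hcon
  let Fr : Finset (Option (Fin r)) := (Finset.univ.filter fun k : Fin r =>
    k ∉ Finset.univ.image cl).image some
  have hFr : Fr.card + U.card = r := by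
    have h1 : Fr.card = (Finset.univ.filter fun k : Fin r =>
        k ∉ Finset.univ.image cl).card :=
      Finset.card_image_of_injective _ (Option.some_injective _)
    have h2 : (Finset.univ.filter fun k : Fin r => k ∈ Finset.univ.image cl).card = U.card := by
      have h3 : (Finset.univ.filter fun k : Fin r => k ∈ Finset.univ.image cl) =
          Finset.univ.image cl := by
        ext k; simp
      rw [h3, Finset.card_image_of_injective _ hclinj, Finset.card_univ, Fintype.card_coe]
    have := Finset.card_filter_add_card_filter_not (s := (Finset.univ : Finset (Fin r)))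
      (fun k => k ∈ Finset.univ.image cl)
    rw [Finset.card_univ, Fintype.card_fin] at this
    rw [h1]
    omega
  choose E hE hEg hEt using hgood
  have hcards : ∀ l, (E l)ᶜ.toLeft.card + (E l)ᶜ.toRight.card + (E l).card = n + k := by
    intro l
    have h1 := Finset.card_compl_add_card (E l)
    rw [Fintype.card_sum, Fintype.card_fin, Fintype.card_fin] at h1
    rw [Finset.card_toLeft_add_card_toRight]
    exact h1
  have hone_lt : ∀ l i, Sum.inl i ∉ E l → 1 < (V l).valuation (s i) := by
    intro l i hi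
    by_contra hle
    push Not at hle
    have h1 : (V l).valuation (s i) * g l ^ e l (Sum.inl i) < 1 :=
      (mul_le_of_le_one_left' hle).trans_lt (pow_lt_one₀ zero_le (hg l) (he l _).ne')
    rw [hEg l i hi] at h1
    exact lt_irrefl _ h1
  have htie := fun l i (hi : Sum.inl i ∉ E l) => tie (V l) (R i) (hR i) (hVR l i) (hT i) (hRs i)
    (hone_lt l i hi)
  have hgt : ∀ l i, Sum.inl i ∉ E l → 1 < (V l).valuation (x (Sum.inl i)) :=
    fun l i hi => (htie l i hi).1
  have hmaps : ∀ l, ∀ i ∈ (E l)ᶜ.toLeft, cls i ∈ Fr := by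
    intro l i hi
    have h1 := hgt l i (Finset.mem_compl.1 (Finset.mem_toLeft.1 hi))
    cases hc : cls i with
    | none => exact absurd h1 (not_lt.2 (hVc l i hc))
    | some k =>
      refine Finset.mem_image_of_mem _ (Finset.mem_filter.2 ⟨Finset.mem_univ _, ?_⟩)
      intro hk
      obtain ⟨t, -, ht⟩ := Finset.mem_image.1 hk
      have h3 := hV1 l t i k (ht ▸ hcl t) hc
        (hVx l ⟨Sum.inl (t : Fin n), Finset.mem_toLeft.1 t.2⟩).le
      exact absurd h1 (not_lt.2 h3)
  -- the places of the two kinds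
  let FT : Finset (Fin L) := Finset.univ.filter fun l =>
    k < Module.finrank ℤ M' + (E l)ᶜ.toRight.card
  have hsum : FTᶜ.card + FT.card = L := by
    have := Finset.card_compl_add_card FT
    rwa [Fintype.card_fin] at this
  have hFM : FTᶜ.card ≤ m + 1 := by
    by_contra hlt
    push Not at hlt
    have hmem : ∀ l ∈ FTᶜ, Module.finrank ℤ M' + (E l)ᶜ.toRight.card ≤ k := by
      intro l hl
      by_contra h
      push Not at h
      exact Finset.mem_compl.1 hl (Finset.mem_filter.2 ⟨Finset.mem_univ _, h⟩)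
    obtain ⟨Sx, hSx, hSc⟩ := Finset.exists_subset_card_eq (Nat.succ_le_of_lt hlt)
    let f : Fin (m + 2) → Fin L := fun l => Sx.orderEmbOfFin hSc l
    have hf : Function.Injective f := (Sx.orderEmbOfFin hSc).injective
    have hfm : ∀ l, f l ∈ FTᶜ := fun l => hSx (Finset.orderEmbOfFin_mem Sx hSc l)
    have h0 := hmem _ (hfm ⟨0, by omega⟩)
    have h0' := hcards (f ⟨0, by omega⟩)
    have h0'' := hE (f ⟨0, by omega⟩)
    have h0l : (E (f ⟨0, by omega⟩))ᶜ.toLeft.card ≤ n := by
      have := Finset.card_le_univ (E (f ⟨0, by omega⟩))ᶜ.toLeft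
      rwa [Fintype.card_fin] at this
    refine no_rel (m := m - Module.finrank ℤ M') (by omega)
      (fun l i => e (f l) (Sum.inl i)) (hsq f hf) δ hδ (fun l => (E (f l))ᶜ.toLeft)
      (fun l => ?_) cls Fr (fun l => hmaps (f l)) ?_ ?_
    · have h1 := hcards (f l)
      have h2 := hE (f l)
      have h3 := hmem _ (hfm l)
      show n ≤ (E (f l))ᶜ.toLeft.card + (m - Module.finrank ℤ M')
      omega
    · omega
    · intro l i hi j hj _ hcls
      have hi' : Sum.inl i ∉ E (f l) := Finset.mem_compl.1 (Finset.mem_toLeft.1 hi)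
      have hj' : Sum.inl j ∉ E (f l) := Finset.mem_compl.1 (Finset.mem_toLeft.1 hj)
      obtain ⟨k, -, hk⟩ := Finset.mem_image.1 (hmaps (f l) i hi)
      obtain ⟨h1, u, w, hu0, huT, hw0, hwT, huw⟩ := htie (f l) i hi'
      obtain ⟨-, u', w', hu0', huT', hw0', hwT', huw'⟩ := htie (f l) j hj'
      exact ⟨u * w * (u' * w'), ((Smo.of_le hu0 huT).mul (Smo.of_le hw0 hwT)).mul
        ((Smo.of_le hu0' huT').mul (Smo.of_le hw0' hwT')),
        sq_tie' (hQ i j) (hrel i j k hk.symm (hcls ▸ hk.symm)).2 (V (f l)) (hg (f l))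
          (hEg (f l) i hi') (hEg (f l) j hj') h1 huw huw'⟩
  have hFT : FT.card ≤ torB k m := by
    by_contra hlt
    push Not at hlt
    let Bs : Finset (Finset (Fin k)) := Finset.univ.filter fun Y => Y.card ≤ m
    obtain ⟨Z, -, hZ⟩ := Finset.exists_lt_card_fiber_of_mul_lt_card_of_maps_to (s := FT)
      (t := Bs) (f := fun l => (E l).toRight) (n := k - 1)
      (fun l _ => Finset.mem_filter.2 ⟨Finset.mem_univ _, by
        have h1 := (E l).card_toLeft_add_card_toRight
        have h2 := hE l
        omega⟩) (by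
        rw [mul_comm, card_small]
        exact hlt)
    have hne : (FT.filter fun l => (E l).toRight = Z).Nonempty := Finset.card_pos.1 (by omega)
    obtain ⟨l0, hl0⟩ := hne
    rw [Finset.mem_filter] at hl0
    have hcompl : ∀ l, (E l)ᶜ.toRight = ((E l).toRight)ᶜ := by
      intro l
      ext j
      rw [Finset.mem_toRight, Finset.mem_compl, Finset.mem_compl, Finset.mem_toRight]
    have hbig : k < Module.finrank ℤ M' + Zᶜ.card := by
      have := (Finset.mem_filter.1 hl0.1).2
      rwa [hcompl, hl0.2] at this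
    obtain ⟨a, haΛ, ha0, haZ⟩ := W282.ZP.exists_supported M' Zᶜ hbig
    refine ha0 (hlin (FT.filter fun l => (E l).toRight = Z) a (by omega) fun l hl => ?_)
    rw [Finset.mem_filter] at hl
    have h1 : ∀ j ∈ Zᶜ, (V l).valuation (xt j) * g l ^ e l (Sum.inr j) = 1 := by
      intro j hj
      rw [← hl.2, ← hcompl] at hj
      exact hEt l j (Finset.mem_compl.1 (Finset.mem_toRight.1 hj))
    exact rel_of_polar' (V l) (hg l) (hg0 l) (x := xt)
      (e := fun j => e l (Sum.inr j)) h1 haZ (hle l haΛ)
  omega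

end Pool.Agent.Q170.ZP
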