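import Pool.Agent.Q170.ZP.Fam

/-!
The local criterion with `m + 2` good places, and the transcendental members of one-parameter
families (helper file; the proofs follow `MP_d83ecd_ag.LocalCriterion`).
-/

set_option autoImplicit false

namespace Pool.Agent.Q170.ZP

open H294ZP UpperHalfPlane MvPolynomial Pool.Agent.W282.ZP
open Pool.Agent.Y152.RP.Fam (SpecialVariety SpecialVariety.locus NoAtypical evalAt OnB
  InGeneralPosition valueAt scaledImage)

/-- `y` is a vector of homogeneous coordinates, in a field `F` to which `Λ` is mapped by `f`, of a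
point of the projective algebraic set `B` defined by the forms `G k`. -/
def OnBf {Λ : Type} [CommRing Λ] {F : Type} [Field F] (f : Λ →+* F) {N : ℕ} {κ : Type}
    (G : κ → MvPolynomial (Fin (N + 1)) Λ) (y : Fin (N + 1) → F) : Prop :=
  y ≠ 0 ∧ ∀ k, eval₂ f y (G k) = 0

/-- The divisors of the `A i / B i` are in general position over `F`: no point of `B` lies on
`m + 1` of them. -/
def GeneralPositionf {Λ : Type} [CommRing Λ] {F : Type} [Field F] (f : Λ →+* F) {N n : ℕ}
    {κ : Type} (m : ℕ) (G : κ → MvPolynomial (Fin (N + 1)) Λ)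
    (A B : Fin n → MvPolynomial (Fin (N + 1)) Λ) : Prop :=
  ∀ I : Finset (Fin n), I.card = m + 1 → ∀ y : Fin (N + 1) → F, OnBf f G y →
    ∃ i ∈ I, eval₂ f y (A i) * eval₂ f y (B i) ≠ 0

/-- The value at `(s, x)` of a polynomial `R = ∑ r_u (J) S^u` in two variables `S` and `J`. -/
noncomputable def valueAtf {Λ : Type} [CommRing Λ] (f : Λ →+* ℂ) (R : Polynomial (Polynomial Λ))
    (s x : ℂ) : ℂ :=
  Polynomial.eval₂ (Polynomial.eval₂RingHom f x) s R

/-- The subset `X` of `Y(1)^n`: the points `x` over which there are values `s_i` of the functions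
on the factors of the product of modular curves, with `c_i s_i = A_i (y) / B_i (y)` for a point `y`
of `B`. -/
def imagef {Λ : Type} [CommRing Λ] (f : Λ →+* ℂ) {N n : ℕ} {κ : Type}
    (G : κ → MvPolynomial (Fin (N + 1)) Λ) (A B : Fin n → MvPolynomial (Fin (N + 1)) Λ)
    (R : Fin n → Polynomial (Polynomial Λ)) (c : Fin n → Λ) : Set (Fin n → ℂ) :=
  {x | ∃ y, OnBf f G y ∧ ∃ s : Fin n → ℂ, ∀ i, valueAtf f (R i) (s i) (x i) = 0 ∧
    f (c i) * eval₂ f y (B i) * s i = eval₂ f y (A i)}

/-- A good place of the data: a homomorphism `red` to an algebraically closed field `F` over which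
the divisors are in general position, and under which the non-zero coefficients of the `R i` do not
vanish, such that `c i` has the exact order `e i` at the place, `a (c i) = b ϖ ^ (e i)` with
`red ϖ = 0` and `a`, `b` invertible at the place. -/
structure GoodPlace {Λ : Type} [CommRing Λ] {N n : ℕ} {κ : Type} (m : ℕ)
    (G : κ → MvPolynomial (Fin (N + 1)) Λ) (A B : Fin n → MvPolynomial (Fin (N + 1)) Λ)
    (R : Fin n → Polynomial (Polynomial Λ)) (c : Fin n → Λ) (e : Fin n → ℕ) where
  F : Type
  [field : Field F]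
  [closed : IsAlgClosed F]
  red : Λ →+* F
  general : GeneralPositionf red m G A B
  coeff_ne : ∀ i u w, ((R i).coeff u).coeff w ≠ 0 → red (((R i).coeff u).coeff w) ≠ 0
  ϖ : Λ
  red_ϖ : red ϖ = 0
  order : ∀ i, ∃ a b : Λ, red a ≠ 0 ∧ red b ≠ 0 ∧ a * c i = b * ϖ ^ e i

/-- the local criterion -/
theorem localW {Λ : Type} [CommRing Λ] (f : Λ →+* ℂ) (hf : Function.Injective f) (K : Subfield ℂ)
    [Countable K] (hK : ∀ a, f a ∈ K) {κ : Type} {N n m T L : ℕ} (hL : m + 2 ≤ L)
    (G : κ → MvPolynomial (Fin (N + 1)) Λ) (hG : ∀ k, ∃ e, (G k).IsHomogeneous e)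
    (A B : Fin n → MvPolynomial (Fin (N + 1)) Λ) (d : Fin n → ℕ)
    (hA : ∀ i, (A i).IsHomogeneous (d i)) (hB : ∀ i, (B i).IsHomogeneous (d i))
    (R : Fin n → Polynomial (Polynomial Λ)) (hR : ∀ i, (R i).Monic)
    (hT : ∀ i u w, ((R i).coeff u).coeff w ≠ 0 → u ≤ T ∧ w ≤ T)
    (c : Fin n → Λ) (e : Fin L → Fin n → ℕ) (he : IndExp T e)
    (P : ∀ l, GoodPlace m G A B R c (e l)) :
    NoAtypical f K m (imagef f G A B R c) := by
  classical
  have hdom : IsDomain Λ := hf.isDomain f
  let _ : Algebra Λ ℂ := f.toAlgebra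
  let fK : Λ →+* K := f.codRestrict K hK
  let _ : Algebra Λ K := fK.toAlgebra
  have hst : IsScalarTower Λ K ℂ := IsScalarTower.of_algebraMap_eq fun _ => rfl
  have hfK : Function.Injective (algebraMap Λ K) := fun a b h => hf (congrArg Subtype.val h)
  intro r Z
  have hpt : ∀ x ∈ imagef f G A B R c ∩ Z.locus, ∀ S : Finset (Fin n),
      AlgebraicIndependent K (fun i : S => x i) → S.card + n ≤ r + m := by
    rintro x ⟨⟨y, hy, s, hxy⟩, hxZ⟩ S hS
    obtain ⟨z, hz⟩ := hxZ
    let inst : ∀ l, Field (P l).F := fun l => (P l).field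
    refine criterionW (m := m) hL G hG A B d hA hB R hR hT c (fun l => RingHom.ker (P l).red)
      (fun l => ?_) ?_ ?_ (fun l => (P l).ϖ) (fun l => ?_) e he ?_ Z.cls
      (fun i => (Z.mat i).det.toNat) x s (fun i => ?_) ?_ ?_
      (fun i => ?_) y hy.1 hy.2 (fun i => (hxy i).2) S (hS.restrictScalars hfK)
    · exact RingHom.ker_isPrime (P l).red
    · intro l F _ φ hφ I hI y' hy0 hyG
      have := (P l).closed
      by_contra hcon
      push Not at hcon
      apply hy0
      refine TH526.ZL.transfer
        (fun b : κ ⊕ I => Sum.elim (fun k => G k) (fun i : I => A i * B i) b) (P l).red ?_ φ hφ y' ?_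
      · intro y'' hy''
        by_contra h0
        obtain ⟨i, hi, h1⟩ := (P l).general I hI y'' ⟨h0, fun k => hy'' (Sum.inl k)⟩
        apply h1
        have h2 := hy'' (Sum.inr ⟨i, hi⟩)
        simp only [Sum.elim_inr, eval₂_mul] at h2
        exact h2
      · rintro (k | i)
        · exact hyG k
        · simp only [Sum.elim_inr, eval₂_mul]
          exact hcon i i.2
    · intro l i u w h0 h1
      exact (P l).coeff_ne i u w h0 h1
    · exact (P l).red_ϖ
    · intro l i
      obtain ⟨a, b, ha, hb, hab⟩ := (P l).order i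
      exact ⟨a, b, ha, hb, hab⟩
    · have := Z.det_pos i
      omega
    · intro i hi
      rw [(hz i).1 hi]
      rcases Z.allowed i with ⟨τ, hτ, hc⟩ | h
      · rw [hc]
        exact (singular_modulus_integral τ hτ).tower_top
      · exact h
    · intro i j l hi hj
      have h5 := Pool.Agent.Y152.RP.Fam.rel_of_locus Z ⟨z, hz⟩ i j l hi hj
      rw [Int.toNat_mul (Z.det_pos i).le (Z.det_pos j).le] at h5
      exact h5
    · exact (hxy i).1
  refine ⟨?_, hpt⟩
  intro W hW hcl hprime
  obtain ⟨x, hxW, T, hT, hdim⟩ := Pool.Agent.W466.ZC.generic_dim K W hprime hcl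
  have h2 := hpt x (hW hxW) T hT
  calc zdim W + (n : Cardinal) ≤ (T.card : Cardinal) + (n : Cardinal) := by gcongr
    _ = ((T.card + n : ℕ) : Cardinal) := by push_cast; rfl
    _ ≤ ((r + m : ℕ) : Cardinal) := by exact_mod_cast h2
    _ = (r : Cardinal) + (m : Cardinal) := by push_cast; rfl

/-- the members of a family as images over the ring of polynomials -/
theorem scaledImage_eq {K : Subfield ℂ} (t : ℂ) {N n : ℕ} {κ : Type}
    (G : κ → MvPolynomial (Fin (N + 1)) (Polynomial K))
    (A B : Fin n → MvPolynomial (Fin (N + 1)) (Polynomial K))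
    (R : Fin n → Polynomial (Polynomial K)) (c : Fin n → Polynomial K) :
    scaledImage t G A B R c = imagef (evalAt K t) G A B
      (fun i => (R i).map (Polynomial.mapRingHom Polynomial.C)) c := by
  have h1 : ∀ x : ℂ, (Polynomial.eval₂RingHom (evalAt K t) x).comp
      (Polynomial.mapRingHom Polynomial.C) =
      (Polynomial.aeval x : Polynomial K →ₐ[K] ℂ).toRingHom := by
    intro x
    refine Polynomial.ringHom_ext (fun a => ?_) ?_
    · simp only [RingHom.comp_apply, Polynomial.coe_mapRingHom, Polynomial.map_C,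
        Polynomial.coe_eval₂RingHom, Polynomial.eval₂_C, AlgHom.toRingHom_eq_coe,
        RingHom.coe_coe, Polynomial.aeval_C]
      show Polynomial.aeval t (Polynomial.C a) = _
      rw [Polynomial.aeval_C]
    · simp only [RingHom.comp_apply, Polynomial.coe_mapRingHom, Polynomial.map_X,
        Polynomial.coe_eval₂RingHom, Polynomial.eval₂_X, AlgHom.toRingHom_eq_coe,
        RingHom.coe_coe, Polynomial.aeval_X]
  have h2 : ∀ i (s x : ℂ), valueAtf (evalAt K t)
      ((R i).map (Polynomial.mapRingHom Polynomial.C)) s x = valueAt (R i) s x := by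
    intro i s x
    rw [valueAtf, Polynomial.eval₂_map, h1]
    rfl
  ext x
  constructor
  · rintro ⟨y, hy, s, hs⟩
    exact ⟨y, hy, s, fun i => ⟨by rw [h2]; exact (hs i).1, (hs i).2⟩⟩
  · rintro ⟨y, hy, s, hs⟩
    exact ⟨y, hy, s, fun i => ⟨by rw [← h2 i]; exact (hs i).1, (hs i).2⟩⟩

/-- the transcendental members of one-parameter families -/
theorem transcW (K₀ : Subfield ℂ) (κ : Type) (N n m T L : ℕ) (hL : m + 2 ≤ L)
    (G : κ → MvPolynomial (Fin (N + 1)) (Polynomial K₀)) (hG : ∀ k, ∃ e, (G k).IsHomogeneous e)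
    (A B : Fin n → MvPolynomial (Fin (N + 1)) (Polynomial K₀)) (d : Fin n → ℕ)
    (hA : ∀ i, (A i).IsHomogeneous (d i)) (hB : ∀ i, (B i).IsHomogeneous (d i))
    (R : Fin n → Polynomial (Polynomial K₀)) (hR : ∀ i, (R i).Monic)
    (hT : ∀ i u w, ((R i).coeff u).coeff w ≠ 0 → u ≤ T ∧ w ≤ T)
    (c : Fin n → Polynomial K₀) (α : Fin L → K₀)
    (he : IndExp T (fun l i => (c i).rootMultiplicity (α l)))
    (hpos : ∀ l, InGeneralPosition ((α l : K₀) : ℂ) m G A B)
    (τ : ℂ) (hτ : Transcendental K₀ τ) (K : Subfield ℂ) [Countable K] (hK₀ : K₀ ≤ K) (hτK : τ ∈ K) :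
    NoAtypical (evalAt K₀ τ) K m (scaledImage τ G A B R c) := by
  classical
  have hf : Function.Injective (evalAt K₀ τ) := transcendental_iff_injective.1 hτ
  rw [scaledImage_eq]
  refine localW (evalAt K₀ τ) hf K ?_ hL G hG A B d hA hB _ (fun i => (hR i).map _) ?_ c
    (fun l i => (c i).rootMultiplicity (α l)) he fun l => ?_
  · intro a
    show Polynomial.aeval τ a ∈ K
    rw [Polynomial.aeval_eq_sum_range]
    refine sum_mem fun i _ => ?_
    rw [Algebra.smul_def]
    exact mul_mem (hK₀ (a.coeff i).2) (pow_mem hτK i)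
  · intro i u w h0
    rw [Polynomial.coeff_map, Polynomial.coe_mapRingHom, Polynomial.coeff_map] at h0
    exact hT i u w fun h1 => h0 (by rw [h1, map_zero])
  · have hev : ∀ a : K₀, evalAt K₀ (α l) (Polynomial.C a) = (a : ℂ) := by
      intro a
      show Polynomial.aeval _ (Polynomial.C a) = _
      rw [Polynomial.aeval_C]
      rfl
    have hev2 : ∀ p : Polynomial K₀, evalAt K₀ (α l) p = ((p.eval (α l) : K₀) : ℂ) := by
      intro p
      show Polynomial.aeval (algebraMap K₀ ℂ (α l)) p = _
      rw [Polynomial.aeval_algebraMap_apply]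
      rfl
    exact
      { F := ℂ
        red := evalAt K₀ (α l)
        general := hpos l
        coeff_ne := by
          intro i u w h0
          rw [Polynomial.coeff_map, Polynomial.coe_mapRingHom, Polynomial.coeff_map] at h0 ⊢
          rw [hev]
          intro h1
          apply h0
          rw [show ((R i).coeff u).coeff w = 0 from Subtype.ext h1, map_zero]
        ϖ := Polynomial.X - Polynomial.C (α l)
        red_ϖ := by
          rw [hev2, Polynomial.eval_sub, Polynomial.eval_X, Polynomial.eval_C, sub_self]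
          rfl
        order := by
          intro i
          have hc0 : c i ≠ 0 := by
            intro h0
            have : 0 < (c i).rootMultiplicity (α l) := he.1 l i
            rw [h0, Polynomial.rootMultiplicity_zero] at this
            exact lt_irrefl _ this
          obtain ⟨q, hq1, hq2⟩ :=
            Polynomial.exists_eq_pow_rootMultiplicity_mul_and_not_dvd (c i) hc0 (α l)
          refine ⟨1, q, ?_, ?_, ?_⟩
          · rw [map_one]
            exact one_ne_zero
          · rw [hev2]
            intro h1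
            apply hq2
            rw [Polynomial.dvd_iff_isRoot, Polynomial.IsRoot.def]
            exact Subtype.ext h1
          · rw [one_mul]
            conv_lhs => rw [hq1]
            ring }

end Pool.Agent.Q170.ZP
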