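import Pool.Agent.TH526.ZL.G
import Pool.Agent.Q170.ZP.MixFam
import Pool.Agent.Q170.ZP.Crit

/-!
The local criterion in products of modular curves and tori with a number of places which does not
depend on the number of the modular curves, and the transcendental members of families (helper file;
the proofs follow `Pool.Agent.TH526.ZL.criterionM` and `MP_defd1c_ag.MixedLocalCriterion`).
-/

set_option autoImplicit false

open Function UpperHalfPlane H294ZP MvPolynomial Pool.Agent.W466.ZC Pool.Agent.TH526.ZL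

namespace Pool.Agent.Q170.ZP

/-- The local criterion, for points. -/
theorem criterionMW {Λ : Type} [CommRing Λ] [IsDomain Λ] [Algebra Λ ℂ] {F : Type} [Field F]
    [Algebra F ℂ] {κ : Type*} {N n k m L : ℕ} (hL : m + 1 + torB k m + 1 ≤ L)
    (G : κ → MvPolynomial (Fin (N + 1)) Λ)
    (hG : ∀ i, ∃ e, (G i).IsHomogeneous e) (A B : Fin n ⊕ Fin k → MvPolynomial (Fin (N + 1)) Λ)
    (d : Fin n ⊕ Fin k → ℕ) (hA : ∀ i, (A i).IsHomogeneous (d i))
    (hB : ∀ i, (B i).IsHomogeneous (d i))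
    (R : Fin n → Polynomial (Polynomial Λ)) (hR : ∀ i, (R i).Monic) {T : ℕ}
    (hT : ∀ i u w, ((R i).coeff u).coeff w ≠ 0 → u ≤ T ∧ w ≤ T)
    (c : Fin n ⊕ Fin k → Λ) (𝔭 : Fin L → Ideal Λ)
    (h𝔭 : ∀ l, (𝔭 l).IsPrime)
    (hpos : ∀ l (F : Type) [Field F] (φ : Λ →+* F), RingHom.ker φ = 𝔭 l →
      ∀ I : Finset (Fin n ⊕ Fin k),
      I.card = m + 1 → ∀ y : Fin (N + 1) → F, y ≠ 0 → (∀ k, eval₂ φ y (G k) = 0) →
      ∃ i ∈ I, eval₂ φ y (A i) * eval₂ φ y (B i) ≠ 0)
    (hRu : ∀ l i u w, ((R i).coeff u).coeff w ≠ 0 → ((R i).coeff u).coeff w ∉ 𝔭 l)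
    (π : Fin L → Λ) (hπ : ∀ l, π l ∈ 𝔭 l)
    (hπ0 : ∀ l, algebraMap Λ ℂ (π l) ≠ 0)
    (e : Fin L → Fin n ⊕ Fin k → ℕ) (he : ∀ l i, 0 < e l i)
    (hc : ∀ l i, ∃ a b : Λ, a ∉ 𝔭 l ∧ b ∉ 𝔭 l ∧ a * c i = b * π l ^ e l i)
    (hsq : ∀ f : Fin (m + 2) → Fin L, Function.Injective f →
      IndExp T fun l i => e (f l) (Sum.inl i))
    (hlin : ∀ (s : Finset (Fin L)) (b : Fin k → ℤ), k ≤ s.card →
      (∀ l ∈ s, ∑ j, b j * (e l (Sum.inr j) : ℤ) = 0) → b = 0)
    {r : ℕ} (cls : Fin n → Option (Fin r)) (δ : Fin n → ℕ) (x : Fin n ⊕ Fin k → ℂ)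
    (s : Fin n → ℂ) (M : Submodule ℤ (Fin k → ℤ)) (η : Fin k → ℂ)
    (hδ : ∀ i, 0 < δ i)
    (hconst : ∀ i, cls i = none → IsIntegral Λ (x (Sum.inl i)))
    (hrel : ∀ i j l, cls i = some l → cls j = some l →
        IsIntegral (Algebra.adjoin ℤ {x (Sum.inl i)}) (x (Sum.inl j)) ∧
        Polynomial.eval₂ (Polynomial.aeval (x (Sum.inl i)) : Polynomial ℂ →ₐ[ℂ] ℂ).toRingHom
          (x (Sum.inl j)) (W282.ZP.Psi (δ i * δ j)) = 0)
    (hRs : ∀ i, Polynomial.eval₂
      (Polynomial.aeval (x (Sum.inl i)) : Polynomial Λ →ₐ[Λ] ℂ).toRingHom (s i) (R i) = 0)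
    (hx0 : ∀ j, x (Sum.inr j) ≠ 0) (hηF : ∀ j, ∃ u : F, η j = algebraMap F ℂ u)
    (hη0 : ∀ j, η j ≠ 0) (hη1 : ∀ j, IsIntegral Λ (η j)) (hη2 : ∀ j, IsIntegral Λ (η j)⁻¹)
    (hM : ∀ a ∈ M, W282.ZP.chi (fun j => x (Sum.inr j)) a = W282.ZP.chi η a)
    (y : Fin (N + 1) → ℂ) (hy0 : y ≠ 0) (hyG : ∀ i, aeval y (G i) = 0)
    (hxy1 : ∀ i, algebraMap Λ ℂ (c (Sum.inl i)) * aeval y (B (Sum.inl i)) * s i =
      aeval y (A (Sum.inl i)))
    (hxy2 : ∀ j, algebraMap Λ ℂ (c (Sum.inr j)) * aeval y (B (Sum.inr j)) * x (Sum.inr j) =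
      aeval y (A (Sum.inr j)))
    (S : Finset (Fin n ⊕ Fin k)) (hS : AlgebraicIndependent Λ (fun i : S => x i))
    (hSF : AlgebraicIndependent F (fun i : S => x i)) :
    S.card + n + Module.finrank ℤ M ≤ r + m := by
  classical
  choose V hV1 hV2 hVx using fun l => exists_place1 (𝔭 l) _ hS
  have hunit : ∀ l (a : Λ), a ∉ 𝔭 l → (V l).valuation (algebraMap Λ ℂ a) = 1 := by
    intro l a ha
    refine le_antisymm (hV1 l a) ?_
    by_contra h
    push Not at h
    exact ha ((hV2 l a).1 h)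
  refine coreMW (m := m) hL R hR hT e he hsq hlin cls δ x s M η hδ
    (fun i hi => (hconst i hi).isAlgebraic) hrel hRs hx0 hηF hM S hS hSF V
    (fun l => (V l).valuation (algebraMap Λ ℂ (π l)))
    (fun l => (Valuation.ne_zero_iff _).2 (hπ0 l)) (fun l => (hV2 l (π l)).2 (hπ l))
    (fun l i hi => mem_of_int (V l) (hV1 l) (hconst i hi))
    (fun l i u w h0 => hunit l _ (hRu l i u w h0)) hVx
    (fun l j => unit_of_int (V l) (hV1 l) (hη0 j) (hη1 j) (hη2 j)) ?_
  intro l
  obtain ⟨t, ht0, hAB, hI⟩ := good_place G hG A B (hpos l) (V l) (hV1 l) (hV2 l) y hy0 hyG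
  have hsm : ∀ (P : MvPolynomial (Fin (N + 1)) Λ) (f : ℕ), P.IsHomogeneous f →
      aeval (t • y) P = t ^ f * aeval y P := by
    intro P f hP
    have h1 := eval_smul (hP.map (algebraMap Λ ℂ)) t y
    rwa [eval_map, eval_map, ← aeval_def, ← aeval_def] at h1
  have hval : ∀ i (z : ℂ), (V l).valuation (aeval (t • y) (A i) * aeval (t • y) (B i)) = 1 →
      algebraMap Λ ℂ (c i) * aeval y (B i) * z = aeval y (A i) →
      (V l).valuation z * (V l).valuation (algebraMap Λ ℂ (π l)) ^ e l i = 1 := by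
    intro i z h1 hz
    have hA1 := (ValuationSubring.valuation_le_one_iff _ _).2 (hAB i).1
    have hB1 := (ValuationSubring.valuation_le_one_iff _ _).2 (hAB i).2
    rw [map_mul] at h1
    have hA2 : (V l).valuation (aeval (t • y) (A i)) = 1 := by
      refine le_antisymm hA1 ?_
      by_contra h
      push Not at h
      have h2 := (mul_le_of_le_one_right' hB1).trans_lt h
      rw [h1] at h2
      exact lt_irrefl _ h2
    have hB2 : (V l).valuation (aeval (t • y) (B i)) = 1 := by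
      rw [hA2, one_mul] at h1
      exact h1
    have h3 : algebraMap Λ ℂ (c i) * aeval (t • y) (B i) * z = aeval (t • y) (A i) := by
      rw [hsm _ _ (hA i), hsm _ _ (hB i), ← hz]
      ring
    have h4 := congrArg (V l).valuation h3
    rw [map_mul, map_mul, hA2, hB2, mul_one] at h4
    obtain ⟨a, b, ha, hb, hab⟩ := hc l i
    have h5 := congrArg (fun z => (V l).valuation (algebraMap Λ ℂ z)) hab
    simp only [map_mul, map_pow, hunit l a ha, hunit l b hb, one_mul] at h5
    rw [← h5, mul_comm]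
    exact h4
  refine ⟨Finset.univ.filter fun i =>
      ¬ (V l).valuation (aeval (t • y) (A i) * aeval (t • y) (B i)) = 1, ?_, ?_, ?_⟩
  · by_contra h
    push Not at h
    obtain ⟨I, hIE, hIc⟩ := Finset.exists_subset_card_eq (Nat.succ_le_of_lt h)
    obtain ⟨i, hi, h1⟩ := hI I hIc
    exact (Finset.mem_filter.1 (hIE hi)).2 h1
  · intro i hi
    rw [Finset.mem_filter] at hi
    push Not at hi
    exact hval _ _ (hi (Finset.mem_univ _)) (hxy1 i)
  · intro j hj
    rw [Finset.mem_filter] at hj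
    push Not at hj
    exact hval _ _ (hj (Finset.mem_univ _)) (hxy2 j)



open Pool.Agent.W282.ZP
open Pool.Agent.Y152.RP.FamM (SpecialVariety SpecialVariety.locus coset NoAtypical evalAt
  InGeneralPosition valueAt scaledImage)

/-- `y` is a vector of homogeneous coordinates, in a field `F` to which `Λ` is mapped by `f`, of a
point of the projective algebraic set `B` defined by the forms `G l`. -/
def OnBm {Λ : Type} [CommRing Λ] {F : Type} [Field F] (f : Λ →+* F) {N : ℕ} {κ : Type}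
    (G : κ → MvPolynomial (Fin (N + 1)) Λ) (y : Fin (N + 1) → F) : Prop :=
  y ≠ 0 ∧ ∀ l, eval₂ f y (G l) = 0

/-- The divisors of the `A i / B i` are in general position over `F`: no point of `B` lies on
`m + 1` of them. -/
def GeneralPositionm {Λ : Type} [CommRing Λ] {F : Type} [Field F] (f : Λ →+* F) {N n k : ℕ}
    {κ : Type} (m : ℕ) (G : κ → MvPolynomial (Fin (N + 1)) Λ)
    (A B : Fin n ⊕ Fin k → MvPolynomial (Fin (N + 1)) Λ) : Prop :=
  ∀ I : Finset (Fin n ⊕ Fin k), I.card = m + 1 → ∀ y : Fin (N + 1) → F, OnBm f G y →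
    ∃ i ∈ I, eval₂ f y (A i) * eval₂ f y (B i) ≠ 0

/-- The subset `X` of `Y(1)^n × G_m^k`: the points `x` over which there are values `s_i` of the
functions on the factors of the product of modular curves, with `c_i s_i = A_i (y) / B_i (y)` for
the modular and `c_j x_j = A_j (y) / B_j (y)` for the torus coordinates, for a point `y` of `B`. -/
def imagem {Λ : Type} [CommRing Λ] (f : Λ →+* ℂ) {N n k : ℕ} {κ : Type}
    (G : κ → MvPolynomial (Fin (N + 1)) Λ) (A B : Fin n ⊕ Fin k → MvPolynomial (Fin (N + 1)) Λ)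
    (R : Fin n → Polynomial (Polynomial Λ)) (c : Fin n ⊕ Fin k → Λ) : Set (Fin n ⊕ Fin k → ℂ) :=
  {x | (∀ j, x (Sum.inr j) ≠ 0) ∧ ∃ y, OnBm f G y ∧
    (∃ s : Fin n → ℂ, ∀ i, valueAtf f (R i) (s i) (x (Sum.inl i)) = 0 ∧
      f (c (Sum.inl i)) * eval₂ f y (B (Sum.inl i)) * s i = eval₂ f y (A (Sum.inl i))) ∧
    ∀ j, f (c (Sum.inr j)) * eval₂ f y (B (Sum.inr j)) * x (Sum.inr j) =
      eval₂ f y (A (Sum.inr j))}

/-- A good place of the data: a homomorphism `red` to an algebraically closed field `F` over which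
the divisors are in general position, and under which the non-zero coefficients of the `R i` do not
vanish, such that `c i` has the exact order `e i` at the place, `a (c i) = b ϖ ^ (e i)` with
`ϖ ≠ 0`, `red ϖ = 0` and `a`, `b` invertible at the place. -/
structure GoodPlaceM {Λ : Type} [CommRing Λ] {N n k : ℕ} {κ : Type} (m : ℕ)
    (G : κ → MvPolynomial (Fin (N + 1)) Λ) (A B : Fin n ⊕ Fin k → MvPolynomial (Fin (N + 1)) Λ)
    (R : Fin n → Polynomial (Polynomial Λ)) (c : Fin n ⊕ Fin k → Λ) (e : Fin n ⊕ Fin k → ℕ) where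
  F : Type
  [field : Field F]
  [closed : IsAlgClosed F]
  red : Λ →+* F
  general : GeneralPositionm red m G A B
  coeff_ne : ∀ i u w, ((R i).coeff u).coeff w ≠ 0 → red (((R i).coeff u).coeff w) ≠ 0
  ϖ : Λ
  ϖ_ne : ϖ ≠ 0
  red_ϖ : red ϖ = 0
  order : ∀ i, ∃ a b : Λ, red a ≠ 0 ∧ red b ≠ 0 ∧ a * c i = b * ϖ ^ e i

/-- the local criterion -/
theorem localMW {Λ : Type} [CommRing Λ] (f : Λ →+* ℂ) (hf : Function.Injective f) (K : Subfield ℂ)
    [Countable K] (hK : ∀ a, f a ∈ K) {κ : Type} {N n k m T L : ℕ}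
    (hL : m + 1 + torB k m + 1 ≤ L)
    (G : κ → MvPolynomial (Fin (N + 1)) Λ) (hG : ∀ k, ∃ e, (G k).IsHomogeneous e)
    (A B : Fin n ⊕ Fin k → MvPolynomial (Fin (N + 1)) Λ) (d : Fin n ⊕ Fin k → ℕ)
    (hA : ∀ i, (A i).IsHomogeneous (d i)) (hB : ∀ i, (B i).IsHomogeneous (d i))
    (R : Fin n → Polynomial (Polynomial Λ)) (hR : ∀ i, (R i).Monic)
    (hT : ∀ i u w, ((R i).coeff u).coeff w ≠ 0 → u ≤ T ∧ w ≤ T)
    (c : Fin n ⊕ Fin k → Λ) (e : Fin L → Fin n ⊕ Fin k → ℕ)
    (he0 : ∀ l i, 0 < e l i) (he1 : ∀ f : Fin (m + 2) → Fin L, Function.Injective f →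
      IndExp T fun l i => e (f l) (Sum.inl i))
    (he2 : ∀ (s : Finset (Fin L)) (b : Fin k → ℤ), k ≤ s.card →
      (∀ l ∈ s, ∑ j, b j * (e l (Sum.inr j) : ℤ) = 0) → b = 0)
    (P : ∀ l, GoodPlaceM m G A B R c (e l)) :
    NoAtypical f K m (imagem f G A B R c) := by
  classical
  have hdom : IsDomain Λ := hf.isDomain f
  let _ : Algebra Λ ℂ := f.toAlgebra
  let fK : Λ →+* K := f.codRestrict K hK
  let _ : Algebra Λ K := fK.toAlgebra
  have hst : IsScalarTower Λ K ℂ := IsScalarTower.of_algebraMap_eq fun _ => rfl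
  have hfK : Function.Injective (algebraMap Λ K) := fun a b h => hf (congrArg Subtype.val h)
  let F := algebraicClosure K ℂ
  intro r Z M η hη
  have hN : ∀ i, 0 < (Z.mat i).det.toNat := by
    intro i
    have := Z.det_pos i
    omega
  have hpt : ∀ x ∈ imagem f G A B R c, (fun i => x (Sum.inl i)) ∈ Z.locus →
      (fun j => x (Sum.inr j)) ∈ coset M η → ∀ S : Finset (Fin n ⊕ Fin k),
      AlgebraicIndependent K (fun i : S => x i) → S.card + n + Module.finrank ℤ M ≤ r + m := by
    rintro x ⟨hx0, y, hy, ⟨s, hxy⟩, hxy2⟩ ⟨z, hz⟩ hC S hS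
    let inst : ∀ l, Field (P l).F := fun l => (P l).field
    refine criterionMW (F := F) (m := m) hL G hG A B d hA hB R hR hT c
      (fun l => RingHom.ker (P l).red)
      (fun l => ?_) ?_ ?_ (fun l => (P l).ϖ) (fun l => ?_) (fun l => ?_) e he0 ?_ ?_ ?_ Z.cls
      (fun i => (Z.mat i).det.toNat) x s M η hN ?_ ?_
      (fun i => ?_) hx0 ?_ (fun j => (hη j).1) (fun j => (hη j).2.1) (fun j => (hη j).2.2) hC.2
      y hy.1 hy.2 (fun i => (hxy i).2) hxy2 S (hS.restrictScalars hfK) (hS.extendScalars F)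
    · exact RingHom.ker_isPrime (P l).red
    · intro l F _ φ hφ I hI y' hy0 hyG
      have := (P l).closed
      by_contra hcon
      push Not at hcon
      apply hy0
      refine TH526.ZL.transfer
        (fun b : κ ⊕ I => Sum.elim (fun k => G k) (fun i : I => A i * B i) b) (P l).red ?_ φ hφ y' ?_
      · intro y'' hy''
        by_contra h0
        obtain ⟨i, hi, h1⟩ := (P l).general I hI y'' ⟨h0, fun k => hy'' (Sum.inl k)⟩
        apply h1
        have h2 := hy'' (Sum.inr ⟨i, hi⟩)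
        simp only [Sum.elim_inr, eval₂_mul] at h2
        exact h2
      · rintro (k | i)
        · exact hyG k
        · simp only [Sum.elim_inr, eval₂_mul]
          exact hcon i i.2
    · intro l i u w h0 h1
      exact (P l).coeff_ne i u w h0 h1
    · exact (P l).red_ϖ
    · intro h0
      exact (P l).ϖ_ne (hf (h0.trans (map_zero f).symm))
    · intro l i
      obtain ⟨a, b, ha, hb, hab⟩ := (P l).order i
      exact ⟨a, b, ha, hb, hab⟩
    · exact he1
    · exact he2
    · intro i hi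
      have e3 : x (Sum.inl i) = Z.const i := (hz i).1 hi
      rw [e3]
      rcases Z.allowed i with ⟨τ, hτ, hc⟩ | h
      · rw [hc]
        exact (singular_modulus_integral τ hτ).tower_top
      · exact h
    · intro i j l hi hj
      have h5 := Pool.Agent.Y152.RP.FamM.rel_of_locus Z ⟨z, hz⟩ i j l hi hj
      rw [Int.toNat_mul (Z.det_pos i).le (Z.det_pos j).le] at h5
      exact h5
    · exact (hxy i).1
    · intro j
      have h1 : IsAlgebraic Λ (η j) := IsIntegral.isAlgebraic (hη j).2.1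
      have h2 : IsAlgebraic K (η j) := h1.extendScalars hfK
      exact ⟨⟨η j, mem_algebraicClosure_iff.2 h2⟩, rfl⟩
  refine ⟨?_, hpt⟩
  intro W hW hcl hprime
  obtain ⟨w, hw⟩ := nonempty_of_prime hprime
  obtain ⟨x, hxW, hx0, T, hT, hdim⟩ := Pool.Agent.W282.SI.generic_dim' K W hprime
    (β := Fin k) (fun j => X (Sum.inr j)) (by
      intro j hj
      rw [mem_idealOf] at hj
      have h2 := hj w hw
      rw [eval_X] at h2
      exact (hW hw).1.1 j h2)
  have hxA : x ∈ W := hcl x hxW fun j => by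
    have h2 := hx0 j
    rwa [eval_X] at h2
  have h2 := hpt x (hW hxA).1 (hW hxA).2.1 (hW hxA).2.2 T hT
  calc zdim W + (n : Cardinal) + (Module.finrank ℤ M : Cardinal) ≤
        (T.card : Cardinal) + (n : Cardinal) + (Module.finrank ℤ M : Cardinal) := by gcongr
    _ = ((T.card + n + Module.finrank ℤ M : ℕ) : Cardinal) := by push_cast; rfl
    _ ≤ ((r + m : ℕ) : Cardinal) := by exact_mod_cast h2
    _ = (r : Cardinal) + (m : Cardinal) := by push_cast; rfl

/-- the members of a family as images over the ring of polynomials -/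
theorem scaledImageM_eq {K : Subfield ℂ} (t : ℂ) {N n k : ℕ} {κ : Type}
    (G : κ → MvPolynomial (Fin (N + 1)) (Polynomial K))
    (A B : Fin n ⊕ Fin k → MvPolynomial (Fin (N + 1)) (Polynomial K))
    (R : Fin n → Polynomial (Polynomial K)) (c : Fin n ⊕ Fin k → Polynomial K) :
    scaledImage t G A B R c = imagem (evalAt K t) G A B
      (fun i => (R i).map (Polynomial.mapRingHom Polynomial.C)) c := by
  have h1 : ∀ x : ℂ, (Polynomial.eval₂RingHom (evalAt K t) x).comp
      (Polynomial.mapRingHom Polynomial.C) =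
      (Polynomial.aeval x : Polynomial K →ₐ[K] ℂ).toRingHom := by
    intro x
    refine Polynomial.ringHom_ext (fun a => ?_) ?_
    · simp only [RingHom.comp_apply, Polynomial.coe_mapRingHom, Polynomial.map_C,
        Polynomial.coe_eval₂RingHom, Polynomial.eval₂_C, AlgHom.toRingHom_eq_coe,
        RingHom.coe_coe, Polynomial.aeval_C]
      show Polynomial.aeval t (Polynomial.C a) = _
      rw [Polynomial.aeval_C]
    · simp only [RingHom.comp_apply, Polynomial.coe_mapRingHom, Polynomial.map_X,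
        Polynomial.coe_eval₂RingHom, Polynomial.eval₂_X, AlgHom.toRingHom_eq_coe,
        RingHom.coe_coe, Polynomial.aeval_X]
  have h2 : ∀ i (s x : ℂ), valueAtf (evalAt K t)
      ((R i).map (Polynomial.mapRingHom Polynomial.C)) s x = valueAt (R i) s x := by
    intro i s x
    rw [valueAtf, Polynomial.eval₂_map, h1]
    rfl
  ext x
  constructor
  · rintro ⟨hx, y, hy, ⟨s, hs⟩, h3⟩
    exact ⟨hx, y, hy, ⟨s, fun i => ⟨by rw [h2]; exact (hs i).1, (hs i).2⟩⟩, h3⟩
  · rintro ⟨hx, y, hy, ⟨s, hs⟩, h3⟩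
    exact ⟨hx, y, hy, ⟨s, fun i => ⟨by rw [← h2 i]; exact (hs i).1, (hs i).2⟩⟩, h3⟩

/-- the transcendental members of one-parameter families -/
theorem transcMW (K₀ : Subfield ℂ) (κ : Type) (N n k m T L : ℕ)
    (hL : m + 1 + torB k m + 1 ≤ L)
    (G : κ → MvPolynomial (Fin (N + 1)) (Polynomial K₀)) (hG : ∀ k, ∃ e, (G k).IsHomogeneous e)
    (A B : Fin n ⊕ Fin k → MvPolynomial (Fin (N + 1)) (Polynomial K₀)) (d : Fin n ⊕ Fin k → ℕ)
    (hA : ∀ i, (A i).IsHomogeneous (d i)) (hB : ∀ i, (B i).IsHomogeneous (d i))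
    (R : Fin n → Polynomial (Polynomial K₀)) (hR : ∀ i, (R i).Monic)
    (hT : ∀ i u w, ((R i).coeff u).coeff w ≠ 0 → u ≤ T ∧ w ≤ T)
    (c : Fin n ⊕ Fin k → Polynomial K₀) (α : Fin L → K₀)
    (he0 : ∀ l i, 0 < (c i).rootMultiplicity (α l))
    (he1 : ∀ f : Fin (m + 2) → Fin L, Function.Injective f →
      IndExp T fun l i => (c (Sum.inl i)).rootMultiplicity (α (f l)))
    (he2 : ∀ (s : Finset (Fin L)) (b : Fin k → ℤ), k ≤ s.card →
      (∀ l ∈ s, ∑ j, b j * ((c (Sum.inr j)).rootMultiplicity (α l) : ℤ) = 0) → b = 0)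
    (hpos : ∀ l, InGeneralPosition ((α l : K₀) : ℂ) m G A B)
    (τ : ℂ) (hτ : Transcendental K₀ τ) (K : Subfield ℂ) [Countable K] (hK₀ : K₀ ≤ K) (hτK : τ ∈ K) :
    NoAtypical (evalAt K₀ τ) K m (scaledImage τ G A B R c) := by
  classical
  have hf : Function.Injective (evalAt K₀ τ) := transcendental_iff_injective.1 hτ
  rw [scaledImageM_eq]
  refine localMW (evalAt K₀ τ) hf K ?_ hL G hG A B d hA hB _ (fun i => (hR i).map _) ?_ c
    (fun l i => (c i).rootMultiplicity (α l)) he0 he1 he2 fun l => ?_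
  · intro a
    show Polynomial.aeval τ a ∈ K
    rw [Polynomial.aeval_eq_sum_range]
    refine sum_mem fun i _ => ?_
    rw [Algebra.smul_def]
    exact mul_mem (hK₀ (a.coeff i).2) (pow_mem hτK i)
  · intro i u w h0
    rw [Polynomial.coeff_map, Polynomial.coe_mapRingHom, Polynomial.coeff_map] at h0
    exact hT i u w fun h1 => h0 (by rw [h1, map_zero])
  · have hev : ∀ a : K₀, evalAt K₀ (α l) (Polynomial.C a) = (a : ℂ) := by
      intro a
      show Polynomial.aeval _ (Polynomial.C a) = _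
      rw [Polynomial.aeval_C]
      rfl
    have hev2 : ∀ p : Polynomial K₀, evalAt K₀ (α l) p = ((p.eval (α l) : K₀) : ℂ) := by
      intro p
      show Polynomial.aeval (algebraMap K₀ ℂ (α l)) p = _
      rw [Polynomial.aeval_algebraMap_apply]
      rfl
    exact
      { F := ℂ
        red := evalAt K₀ (α l)
        general := hpos l
        coeff_ne := by
          intro i u w h0
          rw [Polynomial.coeff_map, Polynomial.coe_mapRingHom, Polynomial.coeff_map] at h0 ⊢
          rw [hev]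
          intro h1
          apply h0
          rw [show ((R i).coeff u).coeff w = 0 from Subtype.ext h1, map_zero]
        ϖ := Polynomial.X - Polynomial.C (α l)
        ϖ_ne := Polynomial.X_sub_C_ne_zero (α l)
        red_ϖ := by
          rw [hev2, Polynomial.eval_sub, Polynomial.eval_X, Polynomial.eval_C, sub_self]
          rfl
        order := by
          intro i
          have hc0 : c i ≠ 0 := by
            intro h0
            have : 0 < (c i).rootMultiplicity (α l) := he0 l i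
            rw [h0, Polynomial.rootMultiplicity_zero] at this
            exact lt_irrefl _ this
          obtain ⟨q, hq1, hq2⟩ :=
            Polynomial.exists_eq_pow_rootMultiplicity_mul_and_not_dvd (c i) hc0 (α l)
          refine ⟨1, q, ?_, ?_, ?_⟩
          · rw [map_one]
            exact one_ne_zero
          · rw [hev2]
            intro h1
            apply hq2
            rw [Polynomial.dvd_iff_isRoot, Polynomial.IsRoot.def]
            exact Subtype.ext h1
          · rw [one_mul]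
            conv_lhs => rw [hq1]
            ring }

end Pool.Agent.Q170.ZP
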