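import Pool.Agent.Y152.RP.Unity
import Pool.Agent.Y475.RP.Unit
import Pool.Agent.Y474.RP.FinA
import Pool.Agent.Y239.RP.SE
import Pool.Agent.Y759.RP.Small

/-!
Parameters in a number field: for all but finitely many of them the values of the minimal polynomial
at all but two of given rational numbers have large prime factors (helper file).
-/

set_option autoImplicit false

namespace Pool.Agent.Q170.ZP.NF

open Polynomial NumberField IsDedekindDomain Pool.Agent.Y152.RP Pool.Agent.Y152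

/-- A finite extension of the rational numbers inside `ℂ` is contained in the image of a Galois number
field with a square root of `-1`. -/
theorem exists_nf (F : IntermediateField ℚ ℂ) [FiniteDimensional ℚ F] :
    ∃ (K : Type) (_ : Field K) (_ : NumberField K) (_ : IsGalois ℚ K)
    (φ : K →+* ℂ), (∃ z : K, z ^ 2 = -1) ∧ ∀ t ∈ F, ∃ κ : K, φ κ = t := by
  classical
  let b := Module.finBasis ℚ F
  have hint : ∀ i, IsIntegral ℚ ((b i : F) : ℂ) := fun i =>
    (Algebra.IsIntegral.isIntegral (R := ℚ) (b i)).map F.val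
  let p : ℚ[X] := (∏ i, minpoly ℚ ((b i : F) : ℂ)) * (X ^ 2 + 1)
  have hq0 : (X ^ 2 + 1 : ℚ[X]) ≠ 0 := by
    have h1 : (X ^ 2 + C 1 : ℚ[X]).Monic := monic_X_pow_add_C 1 two_ne_zero
    rw [C_1] at h1
    exact h1.ne_zero
  have hp0 : p ≠ 0 := mul_ne_zero (Finset.prod_ne_zero_iff.2 fun i _ => minpoly.ne_zero (hint i)) hq0
  let K : IntermediateField ℚ ℂ := IntermediateField.adjoin ℚ (p.rootSet ℂ)
  have hsp : p.IsSplittingField ℚ K :=
    IntermediateField.adjoin_rootSet_isSplittingField (IsAlgClosed.splits _)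
  have hfd : FiniteDimensional ℚ K := Polynomial.IsSplittingField.finiteDimensional K p
  have hnorm : Normal ℚ K := Normal.of_isSplittingField p
  have hgal : IsGalois ℚ K := isGalois_iff.2 ⟨inferInstance, hnorm⟩
  have hθK : ∀ i, ((b i : F) : ℂ) ∈ K := by
    intro i
    refine IntermediateField.subset_adjoin ℚ _ ?_
    rw [mem_rootSet]
    refine ⟨hp0, ?_⟩
    rw [map_mul, map_prod, Finset.prod_eq_zero (Finset.mem_univ i) (minpoly.aeval _ _), zero_mul]
  have hIK : Complex.I ∈ K := by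
    refine IntermediateField.subset_adjoin ℚ _ ?_
    rw [mem_rootSet]
    refine ⟨hp0, ?_⟩
    rw [map_mul, map_add, map_pow, aeval_X, map_one, Complex.I_sq]
    norm_num
  have hFK : F ≤ K := by
    intro t ht
    have h1 := b.sum_repr ⟨t, ht⟩
    have h2 := congrArg (fun z : F => (z : ℂ)) h1
    simp only at h2
    rw [← h2]
    have h3 : ((∑ i, b.repr ⟨t, ht⟩ i • b i : F) : ℂ) =
        ∑ i, b.repr ⟨t, ht⟩ i • ((b i : F) : ℂ) := by
      rw [IntermediateField.coe_sum]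
      rfl
    rw [h3]
    exact sum_mem fun i _ => K.smul_mem (hθK i)
  have halg : (K.algebra' : Algebra ℚ K) = DivisionRing.toRatAlgebra := Subsingleton.elim _ _
  have hfd' : @FiniteDimensional ℚ K _ _ (@Algebra.toModule _ _ _ _ DivisionRing.toRatAlgebra) := by
    rw [← halg]
    exact hfd
  have hnf : NumberField K := { }
  have hgal' : @IsGalois ℚ _ K _ DivisionRing.toRatAlgebra := by
    rw [← halg]
    exact hgal
  refine ⟨K, inferInstance, hnf, hgal', algebraMap K ℂ, ⟨⟨Complex.I, hIK⟩, ?_⟩, ?_⟩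
  · apply Subtype.ext
    show Complex.I ^ 2 = -1
    exact Complex.I_sq
  · intro t ht
    exact ⟨⟨t, hFK ht⟩, rfl⟩

/-- translation of the polynomial and the point by an integer -/
theorem Nv_shift (G : ℤ[X]) (N : ℤ) (α : ℚ) :
    BD.Nv (G.comp (X - C N)) (α + N) = BD.Nv G α := by
  have h1 : ((BD.Nv (G.comp (X - C N)) (α + N) : ℤ) : ℚ) = ((BD.Nv G α : ℤ) : ℚ) := by
    rw [BD.Nv_rat, BD.Nv_rat, Rat.add_intCast_den, natDegree_comp, natDegree_X_sub_C, mul_one,
      aeval_comp]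
    congr 2
    rw [map_sub, aeval_X, aeval_C]
    simp
  exact_mod_cast h1

theorem irr_shift {G : ℤ[X]} (hG : Irreducible G) (N : ℤ) : Irreducible (G.comp (X - C N)) := by
  have h1 := (MulEquiv.irreducible_iff (algEquivAevalXAddC (-N) : ℤ[X] ≃ₐ[ℤ] ℤ[X])).2 hG
  have h2 : (algEquivAevalXAddC (-N) : ℤ[X] ≃ₐ[ℤ] ℤ[X]) G = G.comp (X - C N) := by
    rw [algEquivAevalXAddC_apply, comp, aeval_def, map_neg, ← sub_eq_add_neg]
    rfl
  rwa [h2] at h1

/-- three smooth values -/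
theorem finite_three (F : IntermediateField ℚ ℂ) [FiniteDimensional ℚ F] (D : ℕ)
    (a : Fin 3 → ℚ) (ha : Function.Injective a) :
    {t : ℂ | t ∈ F ∧ ∃ G : ℤ[X], Irreducible G ∧ aeval t G = 0 ∧
      ∀ i, Smo D (BD.Nv G (a i))}.Finite := by
  classical
  obtain ⟨K, _, _, _, φ, hz, hφ⟩ := exists_nf F
  -- the translation
  obtain ⟨N, hN⟩ : ∃ N : ℤ, ∀ i, 0 < a i + N := by
    obtain ⟨N, hN⟩ := exists_nat_gt (∑ i, |a i|)
    refine ⟨N, fun i => ?_⟩
    have h1 : |a i| ≤ ∑ i, |a i| :=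
      Finset.single_le_sum (f := fun i => |a i|) (fun _ _ => abs_nonneg _) (Finset.mem_univ i)
    have h2 := neg_abs_le (a i)
    have h3 : ((N : ℤ) : ℚ) = (N : ℚ) := Int.cast_natCast N
    rw [h3]
    linarith
  let b : Fin 3 → ℚ := fun i => a i + N
  have hb0 : ∀ i, b i ≠ 0 := fun i => (hN i).ne'
  have hbb : ∀ i j, i ≠ j → |b i| ≠ |b j| := by
    intro i j hij h
    rw [abs_of_pos (hN i), abs_of_pos (hN j)] at h
    exact hij (ha (add_right_cancel h))
  obtain ⟨D', hDD, hD'⟩ := Pool.Agent.Y759.RP.bound_primes D b hb0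
  have hfin := Pool.Agent.Y474.RP.finA K hz D' b hb0 hbb hD' 1
  have hbig : ((fun κ : K => φ κ - (N : ℂ)) '' ({κ : K | Sol K D' b 1 κ} ∪ {0})).Finite :=
    (hfin.union (Set.finite_singleton 0)).image _
  refine hbig.subset ?_
  rintro t ⟨htF, G, hG, hGt, hsm⟩
  obtain ⟨κ₀, hκ₀⟩ := hφ t htF
  have hκ : φ (κ₀ + (N : K)) = t + (N : ℂ) := by
    rw [map_add, hκ₀, map_intCast]
  refine ⟨κ₀ + (N : K), ?_, by show φ (κ₀ + (N : K)) - (N : ℂ) = t; rw [hκ]; ring⟩
  by_cases h0 : κ₀ + (N : K) = 0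
  · exact Or.inr h0
  left
  refine ⟨one_pos, h0, fun i w hw => ?_⟩
  have hG' := irr_shift hG N
  have hGt' : aeval (t + (N : ℂ)) (G.comp (X - C N)) = 0 := by
    rw [aeval_comp, map_sub, aeval_X, aeval_C]
    have h1 : t + (N : ℂ) - algebraMap ℤ ℂ N = t := by
      rw [eq_intCast]
      ring
    rw [h1]
    exact hGt
  have hsm' : Smo D (BD.Nv (G.comp (X - C N)) (b i)) := by
    rw [show b i = a i + N from rfl, Nv_shift]
    exact hsm i
  have h1 : Bad1 D ((t + (N : ℂ)) / ((b i : ℚ) : ℂ)) :=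
    Pool.Agent.Y239.RP.SE.scale D _ (b i) (hb0 i) _ hG' hGt' hsm'
  rw [← hκ] at h1
  have h2 := Pool.Agent.Y475.RP.unit K φ D' (κ₀ + (N : K)) (b i) (fun p hp hpD => hD' i p hp hpD)
    (Pool.Agent.Y759.RP.bad1_mono hDD h1) w hw
  rw [pow_one]
  exact h2

/-- Parameters in a number field. -/
theorem nfMain (F : IntermediateField ℚ ℂ) [FiniteDimensional ℚ F] {L M : ℕ} (hM : L + 2 ≤ M)
    (α : Fin M → ℚ) (hα : Function.Injective α) (D : ℕ) :
    {t : ℂ | t ∈ F ∧ ¬ ∃ f : Fin L → Fin M, Function.Injective f ∧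
      ∃ G : ℤ[X], Irreducible G ∧ aeval t G = 0 ∧
        ∀ l, ∃ p : ℕ, p.Prime ∧ D < p ∧ (p : ℤ) ∣ BD.Nv G (α (f l))}.Finite := by
  classical
  have hfin : (⋃ g : Fin 3 ↪ Fin M, {t : ℂ | t ∈ F ∧ ∃ G : ℤ[X], Irreducible G ∧ aeval t G = 0 ∧
      ∀ i, Smo D (BD.Nv G (α (g i)))}).Finite :=
    Set.finite_iUnion fun g => finite_three F D (fun i => α (g i)) (hα.comp g.injective)
  refine hfin.subset ?_
  rintro t ⟨htF, hbad⟩
  have halg : IsAlgebraic ℤ t := by
    have h1 : IsAlgebraic ℚ t := by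
      have h2 : IsIntegral ℚ ((⟨t, htF⟩ : F) : ℂ) :=
        (Algebra.IsIntegral.isIntegral (R := ℚ) (⟨t, htF⟩ : F)).map F.val
      exact h2.isAlgebraic
    exact (IsFractionRing.isAlgebraic_iff ℤ ℚ ℂ).2 h1
  obtain ⟨G, hG, hGt⟩ := exists_irr halg
  let Gd : Finset (Fin M) := Finset.univ.filter fun l =>
    ∃ p : ℕ, p.Prime ∧ D < p ∧ (p : ℤ) ∣ BD.Nv G (α l)
  have hcard : Gd.card < L := by
    by_contra hge
    push Not at hge
    apply hbad
    obtain ⟨S, hS, hSc⟩ := Finset.exists_subset_card_eq hge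
    refine ⟨fun l => S.orderEmbOfFin hSc l, (S.orderEmbOfFin hSc).injective, G, hG, hGt,
      fun l => ?_⟩
    exact (Finset.mem_filter.1 (hS (Finset.orderEmbOfFin_mem S hSc l))).2
  have hcompl : 3 ≤ Gdᶜ.card := by
    rw [Finset.card_compl, Fintype.card_fin]
    omega
  obtain ⟨S, hS, hSc⟩ := Finset.exists_subset_card_eq hcompl
  refine Set.mem_iUnion.2 ⟨(S.orderEmbOfFin hSc).toEmbedding, htF, G, hG, hGt, fun i => ?_⟩
  have h1 : S.orderEmbOfFin hSc i ∉ Gd :=
    Finset.mem_compl.1 (hS (Finset.orderEmbOfFin_mem S hSc i))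
  intro p hp hpD hdvd
  exact h1 (Finset.mem_filter.2 ⟨Finset.mem_univ _, p, hp, hpD, hdvd⟩)

end Pool.Agent.Q170.ZP.NF
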